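import Mathlib

/-!
# Cayley's formula: maps all of whose orbits pass through a given point
-/

set_option autoImplicit false

namespace Pool.Agent.LMD.Cay

/-- no nonempty set is mapped into itself -/
def Reach {U : Type} (f : U → Option U) : Prop :=
  ∀ S : Set U, (∀ u ∈ S, ∃ v ∈ S, f u = some v) → S = ∅

/-- sums over the fibres of a map of the values -/
theorem sum_fib {U Y Z : Type} [Fintype U] [DecidableEq U] [Fintype Y] [DecidableEq Y] [Fintype Z]
    [DecidableEq Z] (m : Y → Z) (w : Y → ℕ) (g : (U → Z) → ℕ) :
    ∑ f : U → Y, (∏ u, w (f u)) * g (m ∘ f) =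
      ∑ h : U → Z, (∏ u, ∑ y ∈ Finset.univ.filter (fun y => m y = h u), w y) * g h := by
  classical
  rw [← Finset.sum_fiberwise (s := (Finset.univ : Finset (U → Y))) (g := fun f => m ∘ f)]
  refine Finset.sum_congr rfl fun h _ => ?_
  rw [Finset.prod_univ_sum, Finset.sum_mul]
  refine Finset.sum_congr ?_ ?_
  · ext f
    simp only [Finset.mem_filter, Finset.mem_univ, true_and, Fintype.mem_piFinset]
    constructor
    · rintro rfl u
      rfl
    · intro hf
      exact funext hf
  · intro f hf
    have : m ∘ f = h := by
      funext u
      exact (Finset.mem_filter.1 (Fintype.mem_piFinset.1 hf u)).2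
    rw [this]

/-- the map which merges the new vertex with `z` -/
def mrg {U : Type} (z : Option U) : Option (Option U) → Option U
  | none => none
  | some none => z
  | some (some u) => some u

theorem reach_none {U : Type} (f : Option U → Option (Option U)) (h : f none = none) :
    Reach f ↔ Reach (mrg none ∘ (f ∘ some)) := by
  constructor
  · intro hf S hS
    have := hf (some '' S) ?_
    · exact Set.image_eq_empty.1 this
    · rintro _ ⟨u, hu, rfl⟩
      obtain ⟨v, hv, hv'⟩ := hS u hu
      refine ⟨some v, ⟨v, hv, rfl⟩, ?_⟩
      simp only [Function.comp_apply] at hv'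
      cases h2 : f (some u) with
      | none => rw [h2] at hv'; cases hv'
      | some z =>
        cases z with
        | none => rw [h2] at hv'; cases hv'
        | some t =>
          rw [h2] at hv'
          simp only [mrg, Option.some.injEq] at hv'
          rw [hv']
  · intro hf S hS
    have h0 : none ∉ S := by
      intro h0
      obtain ⟨v, -, hv⟩ := hS none h0
      rw [h] at hv
      cases hv
    have h1 := hf {u | some u ∈ S} ?_
    · rw [Set.eq_empty_iff_forall_notMem] at h1 ⊢
      intro z hz
      cases z with
      | none => exact h0 hz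
      | some u => exact h1 u hz
    · intro u hu
      obtain ⟨v, hv, hv'⟩ := hS (some u) hu
      cases v with
      | none => exact absurd hv h0
      | some t =>
        refine ⟨t, hv, ?_⟩
        simp only [Function.comp_apply, hv', mrg]

theorem reach_some {U : Type} (f : Option U → Option (Option U)) (u₀ : U)
    (h : f none = some (some u₀)) :
    Reach f ↔ Reach (mrg (some u₀) ∘ (f ∘ some)) := by
  constructor
  · intro hf S hS
    have h1 := hf {z | match z with | none => u₀ ∈ S | some u => u ∈ S} ?_
    · rw [Set.eq_empty_iff_forall_notMem] at h1 ⊢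
      intro u hu
      exact h1 (some u) hu
    · intro z hz
      cases z with
      | none => exact ⟨some u₀, hz, h⟩
      | some u =>
        obtain ⟨v, hv, hv'⟩ := hS u hz
        simp only [Function.comp_apply] at hv'
        cases h2 : f (some u) with
        | none => rw [h2] at hv'; cases hv'
        | some z =>
          cases z with
          | none =>
            rw [h2] at hv'
            simp only [mrg, Option.some.injEq] at hv'
            refine ⟨none, ?_, rfl⟩
            show u₀ ∈ S
            rw [hv']
            exact hv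
          | some t =>
            rw [h2] at hv'
            simp only [mrg, Option.some.injEq] at hv'
            refine ⟨some t, ?_, rfl⟩
            show t ∈ S
            rw [hv']
            exact hv
  · intro hf S hS
    have h1 := hf {u | some u ∈ S} ?_
    · rw [Set.eq_empty_iff_forall_notMem] at h1 ⊢
      intro z hz
      cases z with
      | none =>
        obtain ⟨v, hv, hv'⟩ := hS none hz
        rw [h] at hv'
        refine h1 u₀ ?_
        rw [← Option.some.inj hv'] at hv
        exact hv
      | some u => exact h1 u hz
    · intro u hu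
      obtain ⟨v, hv, hv'⟩ := hS (some u) hu
      cases v with
      | none =>
        refine ⟨u₀, ?_, ?_⟩
        · obtain ⟨t, ht, ht'⟩ := hS none hv
          rw [h] at ht'
          rw [← Option.some.inj ht'] at ht
          exact ht
        · simp only [Function.comp_apply, hv', mrg]
      | some t =>
        refine ⟨t, hv, ?_⟩
        simp only [Function.comp_apply, hv', mrg]

theorem not_reach {U : Type} (f : Option U → Option (Option U)) (h : f none = some none) :
    ¬ Reach f := by
  intro hf
  have := hf {none} ?_
  · exact Set.singleton_ne_empty _ this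
  · intro u hu
    rw [Set.mem_singleton_iff] at hu
    exact ⟨none, rfl, by rw [hu, h]⟩

theorem reach_equiv {U V : Type} (e : U ≃ V) (f : U → Option U) :
    Reach (fun v => Option.map e (f (e.symm v))) ↔ Reach f := by
  constructor
  · intro hf S hS
    have := hf (e '' S) ?_
    · exact Set.image_eq_empty.1 this
    · rintro _ ⟨u, hu, rfl⟩
      obtain ⟨v, hv, hv'⟩ := hS u hu
      refine ⟨e v, ⟨v, hv, rfl⟩, ?_⟩
      show Option.map e (f (e.symm (e u))) = some (e v)
      rw [Equiv.symm_apply_apply, hv']
      rfl
  · intro hf S hS
    have := hf (e ⁻¹' S) ?_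
    · rw [Set.eq_empty_iff_forall_notMem] at this ⊢
      intro v hv
      refine this (e.symm v) ?_
      rw [Set.mem_preimage, Equiv.apply_symm_apply]
      exact hv
    · intro u hu
      obtain ⟨v, hv, hv'⟩ := hS (e u) hu
      simp only [Equiv.symm_apply_apply, Option.map_eq_some_iff] at hv'
      obtain ⟨t, ht, rfl⟩ := hv'
      exact ⟨t, hv, ht⟩

open Classical in
/-- the indicator -/
noncomputable def ind (p : Prop) : ℕ := if p then 1 else 0

theorem ind_true {p : Prop} (h : p) : ind p = 1 := if_pos h

theorem ind_false {p : Prop} (h : ¬ p) : ind p = 0 := if_neg h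

theorem ind_congr {p q : Prop} (h : p ↔ q) : ind p = ind q := by rw [propext h]

/-- the weighted number of the maps without a nonempty stable set -/
noncomputable def N {U : Type} [Fintype U] [DecidableEq U] (w : Option U → ℕ) : ℕ :=
  ∑ f : U → Option U, (∏ u, w (f u)) * ind (Reach f)

theorem N_equiv {U V : Type} [Fintype U] [Fintype V] [DecidableEq U] [DecidableEq V]
    (e : U ≃ V) (w : Option V → ℕ) :
    N w = N (fun z => w (Option.map e z)) := by
  unfold N
  refine (Fintype.sum_equiv (Equiv.arrowCongr e (Equiv.optionCongr e)) _ _ fun f => ?_).symm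
  have h1 : (Equiv.arrowCongr e (Equiv.optionCongr e)) f =
      fun v => Option.map e (f (e.symm v)) := rfl
  rw [h1]
  rw [ind_congr (reach_equiv e f)]
  congr 1
  refine Fintype.prod_equiv e _ _ fun u => ?_
  show w (Option.map e (f u)) = w (Option.map e (f (e.symm (e u))))
  rw [Equiv.symm_apply_apply]

theorem sum_mrg {U : Type} [Fintype U] [DecidableEq U] (z₀ : Option U)
    (w : Option (Option U) → ℕ) :
    ∑ z : Option U, ∑ y ∈ Finset.univ.filter (fun y => mrg z₀ y = z), w y = ∑ y, w y :=
  Finset.sum_fiberwise _ _ _

/-- the new weights -/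
def nw {U : Type} [Fintype U] [DecidableEq U] (z₀ : Option U) (w : Option (Option U) → ℕ) :
    Option U → ℕ :=
  fun z => ∑ y ∈ Finset.univ.filter (fun y => mrg z₀ y = z), w y

theorem nw_none {U : Type} [Fintype U] [DecidableEq U] (w : Option (Option U) → ℕ) :
    nw none w none = w none + w (some none) := by
  unfold nw
  have : (Finset.univ.filter fun y : Option (Option U) => mrg none y = none) =
      {none, some none} := by
    ext y
    rw [Finset.mem_filter]
    rcases y with _ | _ | u <;> simp [mrg]
  rw [this, Finset.sum_pair (by simp)]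

theorem nw_some {U : Type} [Fintype U] [DecidableEq U] (u₀ : U) (w : Option (Option U) → ℕ) :
    nw (some u₀) w none = w none := by
  unfold nw
  have : (Finset.univ.filter fun y : Option (Option U) => mrg (some u₀) y = none) =
      {none} := by
    ext y
    rw [Finset.mem_filter]
    rcases y with _ | _ | u <;> simp [mrg]
  rw [this, Finset.sum_singleton]

theorem N_fib {U : Type} [Fintype U] [DecidableEq U] (z₀ : Option U)
    (w : Option (Option U) → ℕ) :
    N (nw z₀ w) = ∑ f : U → Option (Option U), (∏ u, w (f u)) * ind (Reach (mrg z₀ ∘ f)) := by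
  rw [sum_fib (mrg z₀) w (fun h => ind (Reach h))]
  rfl

/-- the map with the value `y` at the new vertex -/
def ext {U Y : Type} (y : Y) (f : U → Y) : Option U → Y
  | none => y
  | some u => f u

theorem N_option {U : Type} [Fintype U] [DecidableEq U] (w : Option (Option U) → ℕ) :
    N w = w none * N (nw none w) + ∑ u₀ : U, w (some (some u₀)) * N (nw (some u₀) w) := by
  have h1 : N w = ∑ y : Option (Option U), w y * ∑ f : U → Option (Option U),
      (∏ u, w (f u)) * ind (Reach (ext y f)) := by
    unfold N
    rw [← (Equiv.piOptionEquivProd (β := fun _ => Option (Option U))).symm.sum_comp,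
      Fintype.sum_prod_type]
    refine Finset.sum_congr rfl fun y _ => ?_
    rw [Finset.mul_sum]
    refine Finset.sum_congr rfl fun f _ => ?_
    have h2 : (Equiv.piOptionEquivProd (β := fun _ => Option (Option U))).symm (y, f) =
        ext y f := by
      funext z
      cases z <;> rfl
    rw [h2, Fintype.prod_option, ← mul_assoc]
    rfl
  rw [h1, Fintype.sum_option, Fintype.sum_option, N_fib]
  have h3 : ∀ f : U → Option (Option U), ind (Reach (ext none f)) = ind (Reach (mrg none ∘ f)) :=
    fun f => ind_congr (reach_none (ext none f) rfl)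
  have h4 : ∀ f : U → Option (Option U), ind (Reach (ext (some none) f)) = 0 := fun f =>
    ind_false (not_reach (ext (some none) f) rfl)
  have h5 : ∀ (u₀ : U) (f : U → Option (Option U)),
      ind (Reach (ext (some (some u₀)) f)) = ind (Reach (mrg (some u₀) ∘ f)) := fun u₀ f =>
    ind_congr (reach_some (ext (some (some u₀)) f) u₀ rfl)
  simp only [h3, h4, h5, N_fib, mul_zero, Finset.sum_const_zero, zero_add]

theorem main (U : Type) [Fintype U] [DecidableEq U] (w : Option U → ℕ) :
    (∑ z, w z) * N w = w none * (∑ z, w z) ^ Fintype.card U := by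
  refine Fintype.induction_empty_option
    (P := fun (U : Type) [Fintype U] => ∀ [DecidableEq U] (w : Option U → ℕ),
      (∑ z, w z) * N w = w none * (∑ z, w z) ^ Fintype.card U) ?_ ?_ ?_ U w
  · intro α β _ e h _ w
    let _ : Fintype α := Fintype.ofEquiv β e.symm
    let _ : DecidableEq α := fun a b => decidable_of_iff (e a = e b) e.apply_eq_iff_eq
    have h1 := h fun z => w (Option.map e z)
    have h2 : ∑ z, w (Option.map e z) = ∑ z, w z := (Equiv.optionCongr e).sum_comp w
    rw [h2, Fintype.card_congr e] at h1
    rw [N_equiv e]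
    exact h1
  · intro _ w
    have h1 : N w = 1 := by
      unfold N
      have : ∀ f : PEmpty → Option PEmpty, ind (Reach f) = 1 := fun f => ind_true fun S _ =>
        Set.eq_empty_iff_forall_notMem.2 fun u => u.elim
      simp [this]
    rw [h1, Fintype.sum_option]
    simp
  · intro α _ ih _ w
    rename_i dd
    let hd : DecidableEq α := Classical.decEq α
    obtain rfl : dd = @Option.instDecidableEq α hd := Subsingleton.elim _ _
    have hs : ∀ z₀, ∑ z, nw z₀ w z = ∑ y, w y := fun z₀ => sum_mrg z₀ w
    rw [N_option, mul_add, Finset.mul_sum]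
    have h1 := ih (nw none w)
    have h2 := fun u₀ => ih (nw (some u₀) w)
    simp only [hs, nw_none, nw_some] at h1 h2
    have h3 : ∀ u₀ : α, (∑ y, w y) * (w (some (some u₀)) * N (nw (some u₀) w)) =
        w (some (some u₀)) * (w none * (∑ y, w y) ^ Fintype.card α) := by
      intro u₀
      rw [← h2 u₀]
      ring
    rw [Finset.sum_congr rfl fun u₀ _ => h3 u₀, ← Finset.sum_mul]
    have h4 : (∑ y, w y) * (w none * N (nw none w)) =
        w none * ((w none + w (some none)) * (∑ y, w y) ^ Fintype.card α) := by
      rw [← h1]
      ring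
    rw [h4, Fintype.card_option, pow_succ]
    have h5 : ∑ y, w y = w none + (w (some none) + ∑ u₀ : α, w (some (some u₀))) := by
      rw [Fintype.sum_option, Fintype.sum_option]
    generalize (∑ y, w y) ^ Fintype.card α = T
    rw [h5]
    ring

/-- the map as a map to the vertices other than `c` and the root `c` -/
def toOpt {V : Type} [DecidableEq V] (c : V) (z : V) : Option {x : V // x ≠ c} :=
  if h : z = c then none else some ⟨z, h⟩

theorem toOpt_eq {V : Type} [DecidableEq V] (c z : V) (v : {x : V // x ≠ c}) :
    toOpt c z = some v ↔ z = v := by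
  unfold toOpt
  by_cases h : z = c
  · rw [dif_pos h]
    constructor
    · intro h2
      cases h2
    · intro h2
      exact absurd (h2.symm.trans h) v.2
  · rw [dif_neg h, Option.some.injEq, Subtype.ext_iff]

theorem orbit_iff {V : Type} [Finite V] [DecidableEq V] (c : V) (f : V → V) :
    (∀ x, ∃ n : ℕ, f^[n] x = c) ↔
      Reach (fun u : {x : V // x ≠ c} => toOpt c (f u)) := by
  constructor
  · intro h S hS
    rw [Set.eq_empty_iff_forall_notMem]
    intro u hu
    obtain ⟨n, hn⟩ := h u
    have key : ∀ n : ℕ, ∀ u ∈ S, f^[n] (u : V) ≠ c := by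
      intro n
      induction n with
      | zero => exact fun u _ => u.2
      | succ n ih =>
        intro u hu
        obtain ⟨v, hv, hv'⟩ := hS u hu
        rw [toOpt_eq] at hv'
        rw [Function.iterate_succ_apply, hv']
        exact ih v hv
    exact key n u hu hn
  · intro h x
    by_contra hx
    have hx' : ∀ n : ℕ, f^[n] x ≠ c := fun n hn => hx ⟨n, hn⟩
    have := h {u | ∃ n : ℕ, f^[n] x = u} ?_
    · rw [Set.eq_empty_iff_forall_notMem] at this
      exact this ⟨x, hx' 0⟩ ⟨0, rfl⟩
    · rintro u ⟨n, hn⟩
      refine ⟨⟨f^[n + 1] x, hx' (n + 1)⟩, ⟨n + 1, rfl⟩, ?_⟩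
      rw [toOpt_eq]
      show f u = f^[n + 1] x
      rw [Function.iterate_succ_apply', hn]

theorem sum_split {V : Type} [Fintype V] [DecidableEq V] (c : V) (g : (V → V) → ℕ)
    (h : (({x : V // x ≠ c}) → V) → ℕ) (hg : ∀ f, g f = h fun u => f u) :
    ∑ f : V → V, g f = Fintype.card V * ∑ f : ({x : V // x ≠ c}) → V, h f := by
  rw [← (Equiv.funSplitAt c V).symm.sum_comp, Fintype.sum_prod_type]
  have : ∀ (y : V) (f : {x : V // x ≠ c} → V),
      g ((Equiv.funSplitAt c V).symm (y, f)) = h f := by
    intro y f
    rw [hg]
    congr 1
    funext u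
    simp [Equiv.funSplitAt, Equiv.piSplitAt, u.2]
  simp only [this, Finset.sum_const, Finset.card_univ, smul_eq_mul]

/-- **Cayley's formula** -/
theorem cayley {V : Type} [Fintype V] [DecidableEq V] (c : V) :
    Fintype.card V * {f : V → V | ∀ x, ∃ n : ℕ, f^[n] x = c}.ncard =
      Fintype.card V ^ Fintype.card V := by
  classical
  have h1 : {f : V → V | ∀ x, ∃ n : ℕ, f^[n] x = c}.ncard =
      ∑ f : V → V, ind (∀ x, ∃ n : ℕ, f^[n] x = c) := by
    rw [Set.ncard_eq_toFinset_card', Finset.card_eq_sum_ones, Set.toFinset_ofPred,
      Finset.sum_filter]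
    refine Finset.sum_congr rfl fun f _ => ?_
    unfold ind
    congr
  have h2 : ∑ f : V → V, ind (∀ x, ∃ n : ℕ, f^[n] x = c) = Fintype.card V *
      ∑ f : ({x : V // x ≠ c}) → V, ind (Reach fun u => toOpt c (f u)) :=
    sum_split c _ (fun f => ind (Reach fun u => toOpt c (f u))) fun f => ind_congr (orbit_iff c f)
  have h3 : ∑ f : ({x : V // x ≠ c}) → V, ind (Reach fun u => toOpt c (f u)) =
      N (fun _ : Option {x : V // x ≠ c} => 1) := by
    unfold N
    have e := sum_fib (U := {x : V // x ≠ c}) (toOpt c) (fun _ => 1) fun f => ind (Reach f)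
    simp only [Finset.prod_const_one, one_mul] at e
    rw [show (∑ f : ({x : V // x ≠ c}) → V, ind (Reach fun u => toOpt c (f u))) =
      ∑ f : ({x : V // x ≠ c}) → V, ind (Reach (toOpt c ∘ f)) from rfl, e]
    refine Finset.sum_congr rfl fun f _ => ?_
    congr 1
    refine Finset.prod_congr rfl fun u _ => ?_
    rw [Finset.sum_const, smul_eq_mul, mul_one]
    cases f u with
    | none =>
      have : (Finset.univ.filter fun y => toOpt c y = none) = {c} := by
        ext y
        rw [Finset.mem_filter, Finset.mem_singleton]
        unfold toOpt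
        by_cases hy : y = c
        · simp [hy]
        · simp [hy]
      rw [this, Finset.card_singleton]
    | some v =>
      have : (Finset.univ.filter fun y => toOpt c y = some v) = {(v : V)} := by
        ext y
        rw [Finset.mem_filter, Finset.mem_singleton, toOpt_eq]
        simp
      rw [this, Finset.card_singleton]
  have h4 := main {x : V // x ≠ c} (fun _ => 1)
  have h5 : Fintype.card (Option {x : V // x ≠ c}) = Fintype.card V :=
    Fintype.card_congr (Equiv.optionSubtypeNe c)
  simp only [Finset.sum_const, Finset.card_univ, smul_eq_mul, mul_one, one_mul, h5] at h4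
  rw [h1, h2, h3, h4]
  rw [← pow_succ', ← h5, Fintype.card_option]

end Pool.Agent.LMD.Cay

namespace Pool.Agent.LMD

/-- the maps of a finite set all of whose orbits pass through `c` (Cayley) -/
theorem cayley {X : Type} [Finite X] (c : X) :
    {f : X → X | ∀ x, ∃ n : ℕ, f^[n] x = c}.ncard = Nat.card X ^ (Nat.card X - 1) := by
  classical
  let _ : Fintype X := Fintype.ofFinite X
  have h := Cay.cayley c
  have h0 : 0 < Fintype.card X := Fintype.card_pos_iff.2 ⟨c⟩
  rw [Nat.card_eq_fintype_card]
  refine Nat.eq_of_mul_eq_mul_left h0 ?_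
  rw [h, ← pow_succ', Nat.sub_add_cancel h0]

end Pool.Agent.LMD
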