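import Mathlib
import Pool.Agent.AAP.Ex3

set_option autoImplicit false

/-!
# Random maps over a finite field: definitions
-/

namespace Pool.Agent.LMD

open Polynomial
open Pool.Agent.PNH (Tup app mp IsMor Cert)
open Pool.Agent.AAP (wd near tp fm)
open Pool.Agent.AAP.Ex3A (W)

/-- Powers of the variables lie in the ideal of `F`, and every point that is periodic lies in a cycle
of local degree two. -/
def Crit {A : Type} [CommRing A] (F : Tup 1 A) : Prop :=
  (∃ e : ℕ, ∀ j, (MvPolynomial.X j : MvPolynomial (Fin 2) A) ^ e ∈ Ideal.span (Set.range F)) ∧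
  ∀ z : Fin 2 → A, z ≠ 0 → (∃ n : ℕ, 0 < n ∧ wd ((app F)^[n] z) z = 0) →
    ∃ N : ℕ, 0 < N ∧ ∃ u : Fin 2 → A, wd z u ≠ 0 ∧ (∀ j < 2, (W F N z u).coeff j = 0) ∧
      (W F N z u).coeff 2 ≠ 0

section

variable {κ : Type} [Field κ]

/-- The points of the projective line. -/
abbrev Pts (κ : Type) [Field κ] : Type := Projectivization κ (Fin 2 → κ)

open Classical in
/-- A complementary vector. -/
noncomputable def cu (y : Fin 2 → κ) : Fin 2 → κ :=
  if y 0 = 0 then ![-(y 1)⁻¹, 0] else ![0, (y 0)⁻¹]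

theorem wd_cu {y : Fin 2 → κ} (hy : y ≠ 0) : wd y (cu y) = 1 := by
  classical
  unfold cu wd
  split_ifs with h
  · have h1 : y 1 ≠ 0 := fun h1 => hy (by funext i; fin_cases i; exacts [h, h1])
    simp [h1]
  · simp [h]

/-- The jet of the map with coefficients `t` at the point `x`: the coefficients of `1, X, X^2` of
`F(y + X u)`. -/
noncomputable def jt {d : ℕ} (t : Fin (2 * (d + 1)) → κ) (x : Pts κ) (j : Fin 3) : Fin 2 → κ :=
  fun i => (near (tp (d := d) t) 1 x.rep (cu x.rep) i).coeff (j : ℕ)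

open Classical in
/-- The point of a vector (`y` if the vector is zero). -/
noncomputable def cls (y : Pts κ) (z : Fin 2 → κ) : Pts κ :=
  if h : z ≠ 0 then Projectivization.mk κ z h else y

/-- The families of jets with exactly one critical point `c`, of local degree two, such that all
orbits pass through `c`. -/
def Gj (c : Pts κ) (α : Pts κ → Fin 3 → Fin 2 → κ) : Prop :=
  (∀ x, α x 0 ≠ 0) ∧ (∀ x, x ≠ c → wd (α x 1) (α x 0) ≠ 0) ∧ wd (α c 1) (α c 0) = 0 ∧
    wd (α c 2) (α c 0) ≠ 0 ∧ ∀ x, ∃ n : ℕ, (fun y => cls y (α y 0))^[n] x = c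

end

end Pool.Agent.LMD
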