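import Mathlib
import Pool.Agent.LMD.Defs
import Pool.Agent.AAP.OneInf

set_option autoImplicit false

/-!
# Few pairs of binary forms over a finite field have a common factor and no common rational zero
-/

namespace Pool.Agent.LMD

open Polynomial
open Pool.Agent.PNH (Tup app mp IsMor Cert)
open Pool.Agent.AAP (wd near tp fm)

namespace Cpr

variable {κ : Type} [Field κ] {d : ℕ}

/-- the dehomogenised form -/
noncomputable def dh (a : Fin (d + 1) → κ) : κ[X] := ∑ j : Fin (d + 1), C (a j) * X ^ (j : ℕ)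

theorem coeff_dh (a : Fin (d + 1) → κ) (j : Fin (d + 1)) : (dh a).coeff j = a j := by
  unfold dh
  rw [finsetSum_coeff, Finset.sum_eq_single j]
  · rw [coeff_C_mul_X_pow, if_pos rfl]
  · intro i _ hi
    rw [coeff_C_mul_X_pow, if_neg]
    intro h
    exact hi (Fin.ext h.symm)
  · intro h
    exact absurd (Finset.mem_univ _) h

theorem natDegree_dh (a : Fin (d + 1) → κ) : (dh a).natDegree ≤ d := by
  unfold dh
  refine natDegree_sum_le_of_forall_le _ _ fun j _ => ?_
  exact (natDegree_C_mul_X_pow_le _ _).trans (Nat.lt_succ_iff.1 j.2)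

theorem eval_fm (a : Fin (d + 1) → κ) (z : Fin 2 → κ) :
    MvPolynomial.eval z (fm a) =
      ∑ j : Fin (d + 1), a j * z 0 ^ (j : ℕ) * z 1 ^ (d - (j : ℕ)) := by
  unfold fm
  rw [map_sum]
  refine Finset.sum_congr rfl fun j _ => ?_
  rw [map_mul, map_mul, map_pow, map_pow, MvPolynomial.eval_C, MvPolynomial.eval_X,
    MvPolynomial.eval_X]

theorem eval_map_fm {L : Type} [Field L] [Algebra κ L] (a : Fin (d + 1) → κ) (z : Fin 2 → L) :
    MvPolynomial.eval z (MvPolynomial.map (algebraMap κ L) (fm a)) =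
      ∑ j : Fin (d + 1), algebraMap κ L (a j) * z 0 ^ (j : ℕ) * z 1 ^ (d - (j : ℕ)) := by
  unfold fm
  rw [map_sum, map_sum]
  refine Finset.sum_congr rfl fun j _ => ?_
  simp only [map_mul, map_pow, MvPolynomial.map_C, MvPolynomial.map_X, MvPolynomial.eval_C,
    MvPolynomial.eval_X]

theorem eval_dh {L : Type} [Field L] [Algebra κ L] (a : Fin (d + 1) → κ) (z : Fin 2 → L)
    (h : z 1 ≠ 0) :
    z 1 ^ d * aeval (z 0 / z 1) (dh a) =
      MvPolynomial.eval z (MvPolynomial.map (algebraMap κ L) (fm a)) := by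
  rw [eval_map_fm, dh, map_sum, Finset.mul_sum]
  refine Finset.sum_congr rfl fun j _ => ?_
  rw [map_mul, aeval_C, map_pow, aeval_X, div_pow]
  have h1 : z 1 ^ d = z 1 ^ (j : ℕ) * z 1 ^ (d - (j : ℕ)) := by
    rw [← pow_add]
    congr 1
    have := j.2
    omega
  rw [h1]
  field_simp

theorem eval_one (a : Fin (d + 1) → κ) (x : κ) :
    MvPolynomial.eval ![x, 1] (fm a) = (dh a).eval x := by
  rw [eval_fm, dh, eval_finsetSum]
  refine Finset.sum_congr rfl fun j _ => ?_
  rw [eval_mul, eval_C, eval_pow, eval_X]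
  simp

/-- a common factor without a common rational zero -/
theorem exists_factor (t : Fin (2 * (d + 1)) → κ) (hd : 1 ≤ d)
    (h0 : ∀ z : Fin 2 → κ, z ≠ 0 → app (tp (d := d) t) z ≠ 0)
    (h1 : ¬ ∃ e : ℕ, ∀ j, (MvPolynomial.X j : MvPolynomial (Fin 2) κ) ^ e ∈
        Ideal.span (Set.range (tp (d := d) t))) :
    ∃ p : κ[X], p.Monic ∧ 2 ≤ p.natDegree ∧ p.natDegree ≤ d ∧
      ∀ i : Fin 2, p ∣ dh fun j : Fin (d + 1) => t (finProdFinEquiv (i, j)) := by
  obtain ⟨z, hz, hz0⟩ : ∃ z : Fin 2 → AlgebraicClosure κ,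
      app (mp (algebraMap κ (AlgebraicClosure κ)) (tp (d := d) t)) z = 0 ∧ z ≠ 0 := by
    by_contra hcon
    push Not at hcon
    obtain ⟨c, e, hc, hC⟩ := AAP.OneInf.exists_cert_field (tp (d := d) t) hcon
    refine h1 ⟨e, fun j => ?_⟩
    obtain ⟨G, hG⟩ := hC j
    have h2 : (MvPolynomial.X j : MvPolynomial (Fin 2) κ) ^ e =
        ∑ i, (MvPolynomial.C c⁻¹ * G i) * tp (d := d) t i := by
      have h3 : ∑ i, (MvPolynomial.C c⁻¹ * G i) * tp (d := d) t i =
          MvPolynomial.C c⁻¹ * ∑ i, G i * tp (d := d) t i := by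
        rw [Finset.mul_sum]
        exact Finset.sum_congr rfl fun i _ => mul_assoc _ _ _
      rw [h3, hG, ← mul_assoc, ← MvPolynomial.C_mul, inv_mul_cancel₀ hc, MvPolynomial.C_1, one_mul]
    rw [h2]
    exact Ideal.sum_mem _ fun i _ => Ideal.mul_mem_left _ _ (Ideal.subset_span ⟨i, rfl⟩)
  have hzi : ∀ i : Fin 2, MvPolynomial.eval z (MvPolynomial.map (algebraMap κ (AlgebraicClosure κ))
      (fm fun j : Fin (d + 1) => t (finProdFinEquiv (i, j)))) = 0 := fun i => congrFun hz i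
  have hz1 : z 1 ≠ 0 := by
    intro hz1
    have hz2 : z 0 ≠ 0 := fun h => hz0 (by funext i; fin_cases i; exacts [h, hz1])
    refine h0 ![1, 0] (fun h => one_ne_zero (congrFun h 0)) (funext fun i => ?_)
    change MvPolynomial.eval ![1, 0] (fm fun j : Fin (d + 1) => t (finProdFinEquiv (i, j))) = 0
    have h2 := hzi i
    rw [eval_map_fm, Finset.sum_eq_single (Fin.last d)] at h2
    · have h3 : algebraMap κ (AlgebraicClosure κ) (t (finProdFinEquiv (i, Fin.last d))) = 0 := by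
        rw [Fin.val_last, Nat.sub_self, pow_zero, mul_one] at h2
        exact (mul_eq_zero.1 h2).resolve_right (pow_ne_zero _ hz2)
      have h4 : t (finProdFinEquiv (i, Fin.last d)) = 0 :=
        (map_eq_zero_iff _ (algebraMap κ (AlgebraicClosure κ)).injective).1 h3
      rw [eval_fm, Finset.sum_eq_single (Fin.last d)]
      · rw [h4, zero_mul, zero_mul]
      · intro j _ hj
        have : d - (j : ℕ) ≠ 0 := by
          have h5 := j.2
          have h6 : (j : ℕ) ≠ d := fun h => hj (Fin.ext h)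
          omega
        change _ * _ * (0 : κ) ^ _ = 0
        rw [zero_pow this, mul_zero]
      · intro h
        exact absurd (Finset.mem_univ _) h
    · intro j _ hj
      have : d - (j : ℕ) ≠ 0 := by
        have h5 := j.2
        have h6 : (j : ℕ) ≠ d := fun h => hj (Fin.ext h)
        omega
      rw [hz1, zero_pow this, mul_zero]
    · intro h
      exact absurd (Finset.mem_univ _) h
  set θ : AlgebraicClosure κ := z 0 / z 1 with hθ
  have hroot : ∀ i : Fin 2, aeval θ (dh fun j : Fin (d + 1) => t (finProdFinEquiv (i, j))) = 0 := by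
    intro i
    have h2 := eval_dh (fun j : Fin (d + 1) => t (finProdFinEquiv (i, j))) z hz1
    rw [hzi i] at h2
    exact (mul_eq_zero.1 h2).resolve_left (pow_ne_zero _ hz1)
  have hint : IsIntegral κ θ := Algebra.IsIntegral.isIntegral θ
  have hdvd : ∀ i : Fin 2, minpoly κ θ ∣ dh fun j : Fin (d + 1) => t (finProdFinEquiv (i, j)) :=
    fun i => minpoly.dvd κ θ (hroot i)
  refine ⟨minpoly κ θ, minpoly.monic hint, ?_, ?_, hdvd⟩
  · by_contra hlt
    have h2 : (minpoly κ θ).natDegree = 1 := by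
      have := minpoly.natDegree_pos hint
      omega
    obtain ⟨x, hx⟩ := minpoly.natDegree_eq_one_iff.1 h2
    refine h0 ![x, 1] (fun h => one_ne_zero (congrFun h 1)) (funext fun i => ?_)
    change MvPolynomial.eval ![x, 1] (fm fun j : Fin (d + 1) => t (finProdFinEquiv (i, j))) = 0
    rw [eval_one]
    have h3 := hroot i
    rw [← hx, aeval_algebraMap_apply, map_eq_zero_iff _ (algebraMap κ _).injective] at h3
    simpa using h3
  · by_contra hlt
    push Not at hlt
    refine h0 ![1, 0] (fun h => one_ne_zero (congrFun h 0)) (funext fun i => ?_)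
    change MvPolynomial.eval ![1, 0] (fm fun j : Fin (d + 1) => t (finProdFinEquiv (i, j))) = 0
    have h2 : (dh fun j : Fin (d + 1) => t (finProdFinEquiv (i, j))) = 0 := by
      by_contra hne
      have := natDegree_le_of_dvd (hdvd i) hne
      have := natDegree_dh fun j : Fin (d + 1) => t (finProdFinEquiv (i, j))
      omega
    rw [eval_fm]
    refine Finset.sum_eq_zero fun j _ => ?_
    have h3 : t (finProdFinEquiv (i, j)) = 0 := by
      rw [← coeff_dh (fun j : Fin (d + 1) => t (finProdFinEquiv (i, j))) j, h2, coeff_zero]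
    rw [h3, zero_mul, zero_mul]

/-- pairs of multiples of a monic polynomial of degree `m` -/
noncomputable def mlt (κ : Type) [Field κ] (d m : ℕ)
    (p : (Fin m → κ) × (Fin 2 → Fin (d + 1 - m) → κ)) (s : Fin (2 * (d + 1))) : κ :=
  ((X ^ m + ∑ k : Fin m, C (p.1 k) * X ^ (k : ℕ)) *
    ∑ k : Fin (d + 1 - m), C (p.2 (finProdFinEquiv.symm s).1 k) * X ^ (k : ℕ)).coeff
      ((finProdFinEquiv.symm s).2 : ℕ)

theorem mem_range (t : Fin (2 * (d + 1)) → κ) {p : κ[X]} (hp : p.Monic) (hpd : p.natDegree ≤ d)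
    (h : ∀ i : Fin 2, p ∣ dh fun j : Fin (d + 1) => t (finProdFinEquiv (i, j))) :
    t ∈ Set.range (mlt κ d p.natDegree) := by
  choose g hg using h
  refine ⟨(fun k => p.coeff k, fun i k => (g i).coeff k), funext fun s => ?_⟩
  have h1 : X ^ p.natDegree + ∑ k : Fin p.natDegree, C (p.coeff k) * X ^ (k : ℕ) = p := by
    rw [Fin.sum_univ_eq_sum_range (fun k => C (p.coeff k) * X ^ k)]
    exact hp.as_sum.symm
  have h2 : ∀ i, (g i).natDegree < d + 1 - p.natDegree := by
    intro i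
    by_cases h0 : g i = 0
    · rw [h0, natDegree_zero]
      omega
    · have h3 := congrArg natDegree (hg i)
      rw [hp.natDegree_mul' h0] at h3
      have := natDegree_dh fun j : Fin (d + 1) => t (finProdFinEquiv (i, j))
      omega
  have h3 : ∀ i, ∑ k : Fin (d + 1 - p.natDegree), C ((g i).coeff k) * X ^ (k : ℕ) = g i := by
    intro i
    rw [Fin.sum_univ_eq_sum_range (fun k => C ((g i).coeff k) * X ^ k)]
    exact ((g i).as_sum_range_C_mul_X_pow' (h2 i)).symm
  unfold mlt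
  change ((X ^ p.natDegree + ∑ k : Fin p.natDegree, C (p.coeff k) * X ^ (k : ℕ)) *
    ∑ k : Fin (d + 1 - p.natDegree), C ((g (finProdFinEquiv.symm s).1).coeff k) *
      X ^ (k : ℕ)).coeff _ = _
  rw [h1, h3, ← hg, coeff_dh]
  rw [Prod.mk.eta, Equiv.apply_symm_apply]

theorem ncard_mlt [Finite κ] {q m : ℕ} (hκ : Nat.card κ = q) (hm : m ≤ d) :
    (Set.range (mlt κ d m)).ncard ≤ q ^ (2 * d + 2 - m) := by
  have h1 : (Set.range (mlt κ d m)).ncard ≤
      Nat.card ((Fin m → κ) × (Fin 2 → Fin (d + 1 - m) → κ)) := by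
    rw [← Set.image_univ, ← Set.ncard_univ]
    exact Set.ncard_image_le Set.finite_univ
  refine h1.trans (le_of_eq ?_)
  rw [Nat.card_prod, Nat.card_fun, Nat.card_fun, Nat.card_fun, hκ, Nat.card_fin, Nat.card_fin,
    Nat.card_fin, ← pow_mul, ← pow_add]
  congr 1
  omega

theorem tele {q d : ℕ} (hq : 1 ≤ q) (D : ℕ) (h1 : 1 ≤ D) (hD : D ≤ d) :
    (∑ m ∈ Finset.Icc 2 D, q ^ (2 * d + 2 - m)) * (q * (q - 1)) + q ^ (2 * d + 3 - D) =
      q ^ (2 * d + 2) := by
  obtain ⟨p, rfl⟩ : ∃ p, q = p + 1 := ⟨q - 1, by omega⟩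
  rw [Nat.add_sub_cancel]
  induction D, h1 using Nat.le_induction with
  | base =>
    rw [Finset.Icc_eq_empty (by omega), Finset.sum_empty, zero_mul, zero_add]
    congr 1
  | succ D h1 ih =>
    have ih := ih (by omega)
    rw [Finset.sum_Icc_succ_top (by omega), add_mul, add_assoc, ← ih]
    congr 1
    have h2 : 2 * d + 3 - (D + 1) = (2 * d + 2 - (D + 1)) + 1 := by omega
    have h3 : 2 * d + 3 - D = (2 * d + 2 - (D + 1)) + 2 := by omega
    rw [h2, h3]
    ring

end Cpr

open Cpr in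
/-- LMD/Cpr (5): few pairs of forms have a common factor and no common rational zero -/
theorem card_cpr (κ : Type) [Field κ] [Finite κ] {d q : ℕ} (hd : 1 ≤ d) (hκ : Nat.card κ = q) :
    {t : Fin (2 * (d + 1)) → κ | (∀ z : Fin 2 → κ, z ≠ 0 → app (tp (d := d) t) z ≠ 0) ∧
      ¬ ∃ e : ℕ, ∀ j, (MvPolynomial.X j : MvPolynomial (Fin 2) κ) ^ e ∈
        Ideal.span (Set.range (tp (d := d) t))}.ncard * (q * (q - 1)) ≤ q ^ (2 * (d + 1)) := by
  have hq : 1 ≤ q := by
    rw [← hκ]
    exact Nat.card_pos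
  have h1 : {t : Fin (2 * (d + 1)) → κ | (∀ z : Fin 2 → κ, z ≠ 0 → app (tp (d := d) t) z ≠ 0) ∧
      ¬ ∃ e : ℕ, ∀ j, (MvPolynomial.X j : MvPolynomial (Fin 2) κ) ^ e ∈
        Ideal.span (Set.range (tp (d := d) t))}.ncard ≤
      ∑ m ∈ Finset.Icc 2 d, q ^ (2 * d + 2 - m) := by
    refine (Set.ncard_le_ncard (t := ⋃ m ∈ Finset.Icc 2 d, Set.range (mlt κ d m)) ?_
      (Set.toFinite _)).trans ?_
    · rintro t ⟨h0, h1⟩
      obtain ⟨p, hp, hp2, hpd, hdvd⟩ := exists_factor t hd h0 h1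
      exact Set.mem_biUnion (Finset.mem_coe.2 (Finset.mem_Icc.2 ⟨hp2, hpd⟩))
        (mem_range t hp hpd hdvd)
    · refine (Finset.set_ncard_biUnion_le _ _).trans (Finset.sum_le_sum fun m hm => ?_)
      exact ncard_mlt hκ (Finset.mem_Icc.1 hm).2
  calc _ ≤ (∑ m ∈ Finset.Icc 2 d, q ^ (2 * d + 2 - m)) * (q * (q - 1)) :=
        Nat.mul_le_mul_right _ h1
    _ ≤ (∑ m ∈ Finset.Icc 2 d, q ^ (2 * d + 2 - m)) * (q * (q - 1)) + q ^ (2 * d + 3 - d) :=
        Nat.le_add_right _ _
    _ = q ^ (2 * d + 2) := tele hq d hd le_rfl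
    _ = q ^ (2 * (d + 1)) := by
        congr 1

end Pool.Agent.LMD
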