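import Mathlib
import Pool.Agent.LMD.Defs
import Pool.Agent.LMD.Cay

set_option autoImplicit false

/-!
# The number of the good families of jets
-/

namespace Pool.Agent.LMD

open Pool.Agent.AAP (wd)

section

variable {κ : Type} [Field κ] [Finite κ]

omit [Finite κ] in
theorem exists_smul_of_wd {a b : Fin 2 → κ} (hb : b ≠ 0) (h : wd a b = 0) : ∃ s : κ, s • b = a := by
  unfold wd at h
  by_cases h0 : b 0 = 0
  · have h1 : b 1 ≠ 0 := fun h1 => hb (by funext i; fin_cases i; exacts [h0, h1])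
    rw [h0, mul_zero, sub_zero] at h
    have h2 : a 0 = 0 := (mul_eq_zero.1 h).resolve_right h1
    refine ⟨a 1 / b 1, ?_⟩
    funext i
    fin_cases i
    · show a 1 / b 1 * b 0 = a 0
      rw [h0, mul_zero, h2]
    · show a 1 / b 1 * b 1 = a 1
      rw [div_mul_cancel₀ _ h1]
  · refine ⟨a 0 / b 0, ?_⟩
    funext i
    fin_cases i
    · show a 0 / b 0 * b 0 = a 0
      rw [div_mul_cancel₀ _ h0]
    · show a 0 / b 0 * b 1 = a 1
      rw [div_mul_eq_mul_div, div_eq_iff h0]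
      linear_combination h

omit [Finite κ] in
theorem ncard_wd_zero {q : ℕ} (hq : Nat.card κ = q) {b : Fin 2 → κ} (hb : b ≠ 0) :
    {a : Fin 2 → κ | wd a b = 0}.ncard = q := by
  have h1 : {a : Fin 2 → κ | wd a b = 0} = (fun s : κ => s • b) '' Set.univ := by
    ext a
    constructor
    · intro h
      obtain ⟨s, hs⟩ := exists_smul_of_wd hb h
      exact ⟨s, trivial, hs⟩
    · rintro ⟨s, -, rfl⟩
      show s * b 0 * b 1 - s * b 1 * b 0 = 0
      ring
  have hinj : Function.Injective (fun s : κ => s • b) := smul_left_injective κ hb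
  rw [h1, Set.ncard_image_of_injective _ hinj, Set.ncard_univ, hq]

omit [Field κ] [Finite κ] in
theorem card_vec {q : ℕ} (hq : Nat.card κ = q) : Nat.card (Fin 2 → κ) = q ^ 2 := by
  rw [Nat.card_fun, hq, Nat.card_eq_fintype_card, Fintype.card_fin]

theorem ncard_wd_ne {q : ℕ} (hq : Nat.card κ = q) {b : Fin 2 → κ} (hb : b ≠ 0) :
    {a : Fin 2 → κ | wd a b ≠ 0}.ncard = q ^ 2 - q := by
  have h1 := Set.ncard_add_ncard_compl {a : Fin 2 → κ | wd a b = 0}
  rw [ncard_wd_zero hq hb, card_vec hq] at h1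
  have h2 : {a : Fin 2 → κ | wd a b = 0}ᶜ = {a : Fin 2 → κ | wd a b ≠ 0} := rfl
  rw [h2] at h1
  omega

omit [Finite κ] in
theorem ncard_cls {q : ℕ} (hq : Nat.card κ = q) (x y : Pts κ) :
    {a : Fin 2 → κ | a ≠ 0 ∧ cls x a = y}.ncard = q - 1 := by
  classical
  have h1 : {a : Fin 2 → κ | a ≠ 0 ∧ cls x a = y} = (fun u : κˣ => u • y.rep) '' Set.univ := by
    ext a
    constructor
    · rintro ⟨ha, h⟩
      unfold cls at h
      rw [dif_pos ha] at h
      rw [← y.mk_rep, Projectivization.mk_eq_mk_iff] at h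
      obtain ⟨u, hu⟩ := h
      exact ⟨u, trivial, hu⟩
    · rintro ⟨u, -, rfl⟩
      have hne : u • y.rep ≠ 0 := (smul_ne_zero_iff_ne u).2 y.rep_nonzero
      refine ⟨hne, ?_⟩
      unfold cls
      rw [dif_pos hne]
      conv_rhs => rw [← y.mk_rep]
      rw [Projectivization.mk_eq_mk_iff]
      exact ⟨u, rfl⟩
  have hinj : Function.Injective (fun u : κˣ => u • y.rep) := by
    intro u u' h
    apply Units.ext
    exact smul_left_injective κ y.rep_nonzero h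
  rw [h1, Set.ncard_image_of_injective _ hinj, Set.ncard_univ, Nat.card_units, hq]

/-- triples -/
theorem ncard_triple {V : Type} [Finite V] {A₀ : Set V} {A₁ A₂ : V → Set V} {n₀ n₁ n₂ : ℕ}
    (h₀ : A₀.ncard = n₀) (h₁ : ∀ a ∈ A₀, (A₁ a).ncard = n₁) (h₂ : ∀ a ∈ A₀, (A₂ a).ncard = n₂) :
    {a : Fin 3 → V | a 0 ∈ A₀ ∧ a 1 ∈ A₁ (a 0) ∧ a 2 ∈ A₂ (a 0)}.ncard = n₀ * (n₁ * n₂) := by
  classical
  let e : ({a : Fin 3 → V | a 0 ∈ A₀ ∧ a 1 ∈ A₁ (a 0) ∧ a 2 ∈ A₂ (a 0)} : Set (Fin 3 → V)) ≃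
      (Σ a : A₀, (A₁ a.1 × A₂ a.1)) :=
    { toFun := fun a => ⟨⟨a.1 0, a.2.1⟩, (⟨a.1 1, a.2.2.1⟩, ⟨a.1 2, a.2.2.2⟩)⟩
      invFun := fun s => ⟨![s.1.1, s.2.1.1, s.2.2.1], s.1.2, s.2.1.2, s.2.2.2⟩
      left_inv := by
        rintro ⟨a, h⟩
        apply Subtype.ext
        funext i
        fin_cases i <;> rfl
      right_inv := fun s => rfl }
  rw [← Nat.card_coe_set_eq, Nat.card_congr e]
  have : Fintype A₀ := Fintype.ofFinite _
  rw [Nat.card_sigma]
  have h3 : ∀ a : A₀, Nat.card (A₁ a.1 × A₂ a.1) = n₁ * n₂ := by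
    intro a
    rw [Nat.card_prod, Nat.card_coe_set_eq, Nat.card_coe_set_eq, h₁ a.1 a.2, h₂ a.1 a.2]
  rw [Finset.sum_congr rfl fun a _ => h3 a, Finset.sum_const, Finset.card_univ,
    ← Nat.card_eq_fintype_card, Nat.card_coe_set_eq, h₀, smul_eq_mul]

/-- the jets at the point `x` -/
def box (c : Pts κ) (f : Pts κ → Pts κ) (x : Pts κ) : Set (Fin 3 → Fin 2 → κ) :=
  {a | (a 0 ≠ 0 ∧ cls x (a 0) = f x) ∧ (x ≠ c → wd (a 1) (a 0) ≠ 0) ∧
    (x = c → wd (a 1) (a 0) = 0 ∧ wd (a 2) (a 0) ≠ 0)}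

theorem ncard_box_ne {q : ℕ} (hq : Nat.card κ = q) {c x : Pts κ} (f : Pts κ → Pts κ)
    (hx : x ≠ c) : (box c f x).ncard = (q - 1) * ((q ^ 2 - q) * q ^ 2) := by
  have h := ncard_triple (V := Fin 2 → κ) (A₀ := {a | a ≠ 0 ∧ cls x a = f x})
    (A₁ := fun b => {a | wd a b ≠ 0}) (A₂ := fun _ => Set.univ) (ncard_cls hq x (f x))
    (fun b hb => ncard_wd_ne hq hb.1) (fun b _ => by rw [Set.ncard_univ, card_vec hq])
  rw [← h]
  congr 1
  ext a
  constructor
  · rintro ⟨h1, h2, -⟩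
    exact ⟨h1, h2 hx, trivial⟩
  · rintro ⟨h1, h2, -⟩
    exact ⟨h1, fun _ => h2, fun h3 => absurd h3 hx⟩

theorem ncard_box_self {q : ℕ} (hq : Nat.card κ = q) (c : Pts κ) (f : Pts κ → Pts κ) :
    (box c f c).ncard = (q - 1) * (q * (q ^ 2 - q)) := by
  have h := ncard_triple (V := Fin 2 → κ) (A₀ := {a | a ≠ 0 ∧ cls c a = f c})
    (A₁ := fun b => {a | wd a b = 0}) (A₂ := fun b => {a | wd a b ≠ 0}) (ncard_cls hq c (f c))
    (fun b hb => ncard_wd_zero hq hb.1) (fun b hb => ncard_wd_ne hq hb.1)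
  rw [← h]
  congr 1
  ext a
  constructor
  · rintro ⟨h1, -, h3⟩
    exact ⟨h1, (h3 rfl).1, (h3 rfl).2⟩
  · rintro ⟨h1, h2, h3⟩
    exact ⟨h1, fun h => absurd rfl h, fun _ => ⟨h2, h3⟩⟩

theorem card_pts {q : ℕ} (hq : Nat.card κ = q) : Nat.card (Pts κ) = q + 1 := by
  rw [← hq]
  exact Projectivization.card_of_finrank_two κ (Fin 2 → κ) (by simp)

end

/-- LMD/JetC (2): the number of the good families of jets (cites `cayley`) -/
theorem card_Gj (κ : Type) [Field κ] [Finite κ] {q : ℕ} (hq : Nat.card κ = q) :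
    {α : Pts κ → Fin 3 → Fin 2 → κ | ∃ c, Gj c α}.ncard =
      ((q ^ 2 - 1) * (q ^ 2 - q)) ^ (q + 1) * q ^ (2 * q + 1) := by
  classical
  have hfin : Finite (Pts κ) := inferInstance
  have hft : Fintype (Pts κ) := Fintype.ofFinite _
  let S : Type := Σ c : Pts κ, Σ f : {f : Pts κ → Pts κ // ∀ x, ∃ n : ℕ, f^[n] x = c},
    ∀ x, box c f.1 x
  have key : ∀ (c : Pts κ) (f : Pts κ → Pts κ) (g : ∀ x, box c f x),
      (fun y => cls y ((g y).1 0)) = f := by
    intro c f g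
    funext x
    exact (g x).2.1.2
  let Ψ : S → {α : Pts κ → Fin 3 → Fin 2 → κ | ∃ c, Gj c α} := fun s =>
    ⟨fun x => (s.2.2 x).1, s.1, fun x => (s.2.2 x).2.1.1, fun x hx => (s.2.2 x).2.2.1 hx,
      ((s.2.2 s.1).2.2.2 rfl).1, ((s.2.2 s.1).2.2.2 rfl).2, by
        rw [key s.1 s.2.1.1 s.2.2]
        exact s.2.1.2⟩
  have hΨ : Function.Bijective Ψ := by
    constructor
    · rintro ⟨c, ⟨f, hf⟩, g⟩ ⟨c', ⟨f', hf'⟩, g'⟩ h
      have h1 : ∀ x, (g x).1 = (g' x).1 := fun x => congrFun (congrArg Subtype.val h) x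
      have hc : c = c' := by
        by_contra hne
        have h2 := ((g c).2.2.2 rfl).1
        rw [h1 c] at h2
        exact (g' c).2.2.1 hne h2
      subst hc
      have hff : f = f' := by
        rw [← key c f g, ← key c f' g']
        funext y
        rw [h1 y]
      subst hff
      have hg : g = g' := funext fun x => Subtype.ext (h1 x)
      rw [hg]
    · rintro ⟨α, c, h0, h1, h2, h3, h4⟩
      refine ⟨⟨c, ⟨fun y => cls y (α y 0), h4⟩, fun x => ⟨α x, ⟨h0 x, rfl⟩, fun hx => h1 x hx,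
        fun hx => by subst hx; exact ⟨h2, h3⟩⟩⟩, rfl⟩
  rw [← Nat.card_coe_set_eq, ← Nat.card_eq_of_bijective Ψ hΨ]
  have hcard : Fintype.card (Pts κ) = q + 1 := by
    rw [← Nat.card_eq_fintype_card, card_pts hq]
  -- the number of the families over `(c, f)`
  have hprod : ∀ (c : Pts κ) (f : Pts κ → Pts κ), Nat.card (∀ x, box c f x) =
      ((q - 1) * (q * (q ^ 2 - q))) * ((q - 1) * ((q ^ 2 - q) * q ^ 2)) ^ q := by
    intro c f
    rw [Nat.card_pi, ← Finset.mul_prod_erase Finset.univ _ (Finset.mem_univ c)]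
    congr 1
    · rw [Nat.card_coe_set_eq, ncard_box_self hq]
    · rw [Finset.prod_congr rfl (g := fun _ => (q - 1) * ((q ^ 2 - q) * q ^ 2)) (fun x hx => by
        rw [Nat.card_coe_set_eq, ncard_box_ne hq f (Finset.ne_of_mem_erase hx)]),
        Finset.prod_const, Finset.card_erase_of_mem (Finset.mem_univ c), Finset.card_univ, hcard,
        Nat.add_sub_cancel]
  have hmaps : ∀ c : Pts κ, Nat.card {f : Pts κ → Pts κ // ∀ x, ∃ n : ℕ, f^[n] x = c} =
      (q + 1) ^ q := by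
    intro c
    have h := cayley c
    rw [card_pts hq, Nat.add_sub_cancel] at h
    rw [← h]
    exact Nat.card_coe_set_eq _
  have hS : Nat.card S = (q + 1) * ((q + 1) ^ q *
      (((q - 1) * (q * (q ^ 2 - q))) * ((q - 1) * ((q ^ 2 - q) * q ^ 2)) ^ q)) := by
    show Nat.card (Σ c : Pts κ, Σ f : {f : Pts κ → Pts κ // ∀ x, ∃ n : ℕ, f^[n] x = c},
      ∀ x, box c f.1 x) = _
    rw [Nat.card_sigma]
    have h1 : ∀ c : Pts κ, Nat.card (Σ f : {f : Pts κ → Pts κ // ∀ x, ∃ n : ℕ, f^[n] x = c},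
        ∀ x, box c f.1 x) = (q + 1) ^ q *
        (((q - 1) * (q * (q ^ 2 - q))) * ((q - 1) * ((q ^ 2 - q) * q ^ 2)) ^ q) := by
      intro c
      have hft' : Fintype {f : Pts κ → Pts κ // ∀ x, ∃ n : ℕ, f^[n] x = c} := Fintype.ofFinite _
      rw [Nat.card_sigma, Finset.sum_congr rfl fun f _ => hprod c f.1, Finset.sum_const,
        Finset.card_univ, ← Nat.card_eq_fintype_card, hmaps c, smul_eq_mul]
    rw [Finset.sum_congr rfl fun c _ => h1 c, Finset.sum_const, Finset.card_univ, hcard,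
      smul_eq_mul]
  rw [hS]
  have hq1 : 1 ≤ q := by
    rw [← hq]
    exact Nat.card_pos
  have e1 : q ^ 2 - 1 = (q + 1) * (q - 1) := by
    obtain ⟨m, rfl⟩ : ∃ m, q = m + 1 := ⟨q - 1, by omega⟩
    simp only [Nat.add_sub_cancel]
    have : (m + 1) ^ 2 = (m + 1 + 1) * m + 1 := by ring
    omega
  rw [e1]
  generalize q ^ 2 - q = B
  generalize q - 1 = D
  simp only [mul_pow, pow_add, pow_one, pow_mul]
  ring

end Pool.Agent.LMD
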