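import Mathlib
import Pool.Agent.LMD.Defs
import Pool.Agent.AAP.TpA

set_option autoImplicit false

/-!
# Every family of jets occurs
-/

namespace Pool.Agent.LMD

open Polynomial
open Pool.Agent.PNH (Tup app mp IsMor Cert)
open Pool.Agent.AAP (wd near tp fm)

namespace Jet

variable {κ : Type} [Field κ]

/-- the vector near `x` -/
noncomputable def zz (x : Pts κ) : Fin 2 → κ[X] := fun i => C (x.rep i) + X * C (cu x.rep i)

/-- evaluation near `x` -/
noncomputable def ev (x : Pts κ) : MvPolynomial (Fin 2) κ →+* κ[X] :=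
  MvPolynomial.eval₂Hom Polynomial.C (zz x)

theorem near_eq (F : Tup 1 κ) (x : Pts κ) (i : Fin 2) :
    near F 1 x.rep (cu x.rep) i = ev x (F i) := by
  unfold near ev app mp zz
  simp only [Function.iterate_one, MvPolynomial.eval_map]
  rfl

/-- the linear form with the zero `x` -/
noncomputable def lf (x : Pts κ) : MvPolynomial (Fin 2) κ :=
  MvPolynomial.C (x.rep 0) * MvPolynomial.X 1 - MvPolynomial.C (x.rep 1) * MvPolynomial.X 0

/-- the linear form with the value one near `x` -/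
noncomputable def nf (x : Pts κ) : MvPolynomial (Fin 2) κ :=
  MvPolynomial.C (cu x.rep 1) * MvPolynomial.X 0 - MvPolynomial.C (cu x.rep 0) * MvPolynomial.X 1

theorem lf_hom (x : Pts κ) : (lf x).IsHomogeneous 1 := by
  unfold lf
  refine MvPolynomial.IsHomogeneous.sub ?_ ?_
  · exact (MvPolynomial.isHomogeneous_X κ (1 : Fin 2)).C_mul _
  · exact (MvPolynomial.isHomogeneous_X κ (0 : Fin 2)).C_mul _

theorem nf_hom (x : Pts κ) : (nf x).IsHomogeneous 1 := by
  unfold nf
  refine MvPolynomial.IsHomogeneous.sub ?_ ?_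
  · exact (MvPolynomial.isHomogeneous_X κ (0 : Fin 2)).C_mul _
  · exact (MvPolynomial.isHomogeneous_X κ (1 : Fin 2)).C_mul _

theorem ev_lf (x x' : Pts κ) :
    ev x' (lf x) = C (wd x.rep x'.rep) + X * C (wd x.rep (cu x'.rep)) := by
  unfold ev lf wd zz
  simp only [map_sub, map_mul, MvPolynomial.coe_eval₂Hom, MvPolynomial.eval₂_C,
    MvPolynomial.eval₂_X]
  ring

theorem ev_nf (x x' : Pts κ) :
    ev x' (nf x) = C (wd x'.rep (cu x.rep)) + X * C (wd (cu x'.rep) (cu x.rep)) := by
  unfold ev nf wd zz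
  simp only [map_sub, map_mul, MvPolynomial.coe_eval₂Hom, MvPolynomial.eval₂_C,
    MvPolynomial.eval₂_X]
  ring

theorem wd_self' (z : Fin 2 → κ) : wd z z = 0 := by
  unfold wd
  ring

theorem ev_lf_self (x : Pts κ) : ev x (lf x) = X := by
  rw [ev_lf, wd_self', wd_cu x.rep_nonzero, map_zero, zero_add, map_one, mul_one]

theorem ev_nf_self (x : Pts κ) : ev x (nf x) = 1 := by
  rw [ev_nf, wd_self', wd_cu x.rep_nonzero, map_zero, mul_zero, map_one, add_zero]

theorem wd_ne {x y : Pts κ} (h : x ≠ y) : wd x.rep y.rep ≠ 0 := by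
  intro h0
  apply h
  obtain ⟨i, hi⟩ : ∃ i, y.rep i ≠ 0 := by
    by_contra hcon
    push Not at hcon
    exact y.rep_nonzero (funext hcon)
  rw [← x.mk_rep, ← y.mk_rep, Projectivization.mk_eq_mk_iff']
  refine ⟨x.rep i / y.rep i, ?_⟩
  unfold wd at h0
  funext j
  rw [Pi.smul_apply, smul_eq_mul, div_mul_eq_mul_div, div_eq_iff hi]
  have h3 : x.rep 0 * y.rep 1 = x.rep 1 * y.rep 0 := sub_eq_zero.1 h0
  fin_cases i <;> fin_cases j
  · rfl
  · exact h3
  · exact h3.symm
  · rfl

/-- inverse modulo `X^3` -/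
theorem exists_inv {g : κ[X]} (hg : g.coeff 0 ≠ 0) (r : κ[X]) :
    ∃ h : κ[X], h.natDegree < 3 ∧ X ^ 3 ∣ g * h - r := by
  have h1 : IsCoprime g (X ^ 3) := by
    refine IsCoprime.pow_right ?_
    refine ((Polynomial.prime_X).coprime_iff_not_dvd.2 ?_).symm
    rwa [Polynomial.X_dvd_iff]
  obtain ⟨a, b, hab⟩ := h1
  refine ⟨(a * r) %ₘ X ^ 3, ?_, ?_⟩
  · refine lt_of_lt_of_eq (Polynomial.natDegree_modByMonic_lt _ (monic_X_pow 3) ?_)
      (Polynomial.natDegree_X_pow 3)
    intro h
    have := congrArg Polynomial.natDegree h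
    rw [Polynomial.natDegree_X_pow, Polynomial.natDegree_one] at this
    omega
  · have h2 := Polynomial.modByMonic_add_div (a * r) (X ^ 3 : κ[X])
    have h3 : g * ((a * r) %ₘ X ^ 3) - r = X ^ 3 * (- (b * r) - g * ((a * r) /ₘ X ^ 3)) := by
      linear_combination g * h2 + r * hab
    rw [h3]
    exact dvd_mul_right _ _

section

variable [Fintype (Pts κ)] [DecidableEq (Pts κ)]

/-- the product of the cubes of the other linear forms -/
noncomputable def gf (x : Pts κ) : MvPolynomial (Fin 2) κ :=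
  ∏ y ∈ Finset.univ.erase x, lf y ^ 3

theorem gf_hom [Finite κ] (x : Pts κ) : (gf x).IsHomogeneous (3 * Nat.card κ) := by
  have h := MvPolynomial.IsHomogeneous.prod (Finset.univ.erase x) (fun y : Pts κ => lf y ^ 3)
    (fun _ => 3) fun y _ => by
      have h1 := (lf_hom y).pow 3
      rwa [one_mul] at h1
  have h2 : ∑ _y ∈ Finset.univ.erase x, 3 = 3 * Nat.card κ := by
    have h3 : Nat.card (Pts κ) = Nat.card κ + 1 :=
      Projectivization.card_of_finrank_two κ (Fin 2 → κ) (by simp)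
    rw [Finset.sum_const, Finset.card_erase_of_mem (Finset.mem_univ x), Finset.card_univ,
      ← Nat.card_eq_fintype_card, h3, smul_eq_mul]
    simp [mul_comm]
  rw [h2] at h
  exact h

theorem dvd_gf {x x' : Pts κ} (h : x ≠ x') : X ^ 3 ∣ ev x' (gf x) := by
  unfold gf
  rw [map_prod]
  refine dvd_trans ?_ (Finset.dvd_prod_of_mem _ (Finset.mem_erase.2 ⟨h.symm, Finset.mem_univ x'⟩))
  rw [map_pow, ev_lf_self]

theorem coeff_gf (x : Pts κ) : (ev x (gf x)).coeff 0 ≠ 0 := by
  unfold gf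
  rw [map_prod, Polynomial.coeff_zero_prod, Finset.prod_ne_zero_iff]
  intro y hy
  have h1 : (ev x (lf y)).coeff 0 = wd y.rep x.rep := by
    rw [ev_lf]
    simp
  rw [map_pow, Polynomial.coeff_zero_eq_eval_zero, Polynomial.eval_pow,
    ← Polynomial.coeff_zero_eq_eval_zero, h1]
  exact pow_ne_zero _ (wd_ne (Finset.ne_of_mem_erase hy))

end

/-- the form of degree `m` with a given jet -/
noncomputable def hf (x : Pts κ) (m : ℕ) (h : κ[X]) : MvPolynomial (Fin 2) κ :=
  ∑ k ∈ Finset.range 3, MvPolynomial.C (h.coeff k) * (lf x ^ k * nf x ^ (m - k))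

theorem hf_hom (x : Pts κ) {m : ℕ} (hm : 2 ≤ m) (h : κ[X]) : (hf x m h).IsHomogeneous m := by
  refine MvPolynomial.IsHomogeneous.sum _ _ _ fun k hk => ?_
  rw [Finset.mem_range] at hk
  refine MvPolynomial.IsHomogeneous.C_mul ?_ _
  have h1 := ((lf_hom x).pow k).mul ((nf_hom x).pow (m - k))
  rw [one_mul, one_mul, Nat.add_sub_cancel' (by omega)] at h1
  exact h1

theorem ev_hf (x : Pts κ) (m : ℕ) {h : κ[X]} (hh : h.natDegree < 3) : ev x (hf x m h) = h := by
  unfold hf
  rw [map_sum]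
  refine Eq.trans (Finset.sum_congr rfl fun k _ => ?_)
    (Polynomial.as_sum_range' h 3 hh).symm
  rw [map_mul, map_mul, map_pow, map_pow, ev_lf_self, ev_nf_self, one_pow, mul_one,
    ← Polynomial.C_mul_X_pow_eq_monomial]
  congr 1
  exact MvPolynomial.eval₂_C _ _ _

end Jet

/-- every family of jets occurs, for large degree -/
theorem jt_surj (κ : Type) [Field κ] [Finite κ] {d : ℕ} (hq : 5 ≤ Nat.card κ)
    (hd : 3 * Nat.card κ + 6 ≤ d) (α : Pts κ → Fin 3 → Fin 2 → κ) :
    ∃ t : Fin (2 * (d + 1)) → κ, jt t = α := by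
  classical
  have hfin : Finite (Pts κ) := by
    unfold Pts Projectivization
    infer_instance
  let _ : Fintype (Pts κ) := Fintype.ofFinite _
  have key : ∀ i : Fin 2, ∃ P : MvPolynomial (Fin 2) κ, P.IsHomogeneous d ∧
      ∀ (x : Pts κ) (j : Fin 3), (Jet.ev x P).coeff (j : ℕ) = α x j i := by
    intro i
    choose h h1 h2 using fun x : Pts κ => Jet.exists_inv (Jet.coeff_gf x)
      (∑ j : Fin 3, Polynomial.monomial (j : ℕ) (α x j i))
    refine ⟨∑ x, Jet.gf x * Jet.hf x (d - 3 * Nat.card κ) (h x), ?_, fun x j => ?_⟩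
    · refine MvPolynomial.IsHomogeneous.sum _ _ _ fun x _ => ?_
      have h3 := (Jet.gf_hom x).mul (Jet.hf_hom x (m := d - 3 * Nat.card κ) (by omega) (h x))
      rw [Nat.add_sub_cancel' (by omega)] at h3
      exact h3
    · have h4 : X ^ 3 ∣ Jet.ev x (∑ x, Jet.gf x * Jet.hf x (d - 3 * Nat.card κ) (h x)) -
          ∑ j : Fin 3, Polynomial.monomial (j : ℕ) (α x j i) := by
        rw [map_sum, ← Finset.add_sum_erase _ _ (Finset.mem_univ x), map_mul,
          Jet.ev_hf x _ (h1 x), add_sub_right_comm]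
        refine dvd_add (h2 x) (Finset.dvd_sum fun y hy => ?_)
        rw [map_mul]
        exact dvd_mul_of_dvd_left (Jet.dvd_gf (Finset.ne_of_mem_erase hy)) _
      rw [Polynomial.X_pow_dvd_iff] at h4
      have h5 := h4 j j.2
      rw [Polynomial.coeff_sub, sub_eq_zero] at h5
      rw [h5, Polynomial.finsetSum_coeff]
      rw [Finset.sum_eq_single j]
      · rw [Polynomial.coeff_monomial, if_pos rfl]
      · intro k _ hk
        rw [Polynomial.coeff_monomial, if_neg]
        exact fun h => hk (Fin.ext h)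
      · intro h
        exact absurd (Finset.mem_univ j) h
  choose P hP hP' using key
  obtain ⟨t, ht⟩ : ∃ t : Fin (2 * (d + 1)) → κ, tp (d := d) t = P := by
    refine ⟨fun n => (P (finProdFinEquiv.symm n).1).coeff
      (Pool.Agent.AAP.PosA.ex d (finProdFinEquiv.symm n).2), ?_⟩
    funext i
    unfold tp
    simp only [Equiv.symm_apply_apply]
    exact (Pool.Agent.AAP.PosA.eq_fm (hP i)).symm
  refine ⟨t, ?_⟩
  funext x j i
  unfold jt
  rw [Jet.near_eq, ht]
  exact hP' i x j

end Pool.Agent.LMD
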