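import Mathlib
import Pool.Agent.LMD.Defs

set_option autoImplicit false

/-!
# Equidistribution of the jets
-/

namespace Pool.Agent.LMD

open Polynomial
open Pool.Agent.PNH (Tup app mp IsMor Cert)
open Pool.Agent.AAP (wd near tp fm)

namespace JetE

theorem fm_add {κ : Type} [Field κ] {d : ℕ} (a b : Fin (d + 1) → κ) :
    fm (fun j => a j + b j) = fm a + fm b := by
  unfold fm
  rw [← Finset.sum_add_distrib]
  refine Finset.sum_congr rfl fun i _ => ?_
  rw [map_add]
  ring

theorem jt_add {κ : Type} [Field κ] {d : ℕ} (t t' : Fin (2 * (d + 1)) → κ) :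
    jt (t + t') = jt t + jt t' := by
  funext x j i
  have h : tp (d := d) (t + t') i = tp (d := d) t i + tp (d := d) t' i := fm_add _ _
  show (MvPolynomial.eval (fun i => C (x.rep i) + X * C (cu x.rep i))
      (MvPolynomial.map C (tp (d := d) (t + t') i))).coeff (j : ℕ) =
    (MvPolynomial.eval (fun i => C (x.rep i) + X * C (cu x.rep i))
      (MvPolynomial.map C (tp (d := d) t i))).coeff (j : ℕ) +
    (MvPolynomial.eval (fun i => C (x.rep i) + X * C (cu x.rep i))
      (MvPolynomial.map C (tp (d := d) t' i))).coeff (j : ℕ)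
  rw [h, map_add, map_add, coeff_add]

theorem card_pre {G H : Type} [AddGroup G] [AddGroup H] [Finite G] [Finite H] (f : G →+ H)
    (hf : Function.Surjective f) (S : Set H) :
    {g | f g ∈ S}.ncard * Nat.card H = S.ncard * Nat.card G := by
  classical
  have := Fintype.ofFinite G
  have := Fintype.ofFinite H
  have key : ∀ T : Finset H, (Finset.univ.filter fun g => f g ∈ T).card =
      T.card * (Finset.univ.filter fun g => f g = 0).card := by
    intro T
    rw [Finset.card_eq_sum_card_fiberwise (f := f) (t := T)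
      (fun g hg => by simpa using hg), ← smul_eq_mul, ← Finset.sum_const]
    refine Finset.sum_congr rfl fun s hs => ?_
    rw [← AddMonoidHom.card_fiber_eq_of_mem_range f (hf s) (hf 0)]
    congr 1
    ext g
    simp only [Finset.mem_filter, Finset.mem_univ, true_and]
    constructor
    · exact fun h => h.2
    · intro h
      exact ⟨by rw [h]; exact hs, h⟩
  have h1 := key S.toFinset
  have h2 := key Finset.univ
  have h3 : {g | f g ∈ S}.ncard = (Finset.univ.filter fun g => f g ∈ S.toFinset).card := by
    rw [Set.ncard_eq_toFinset_card']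
    congr 1
    ext g
    simp
  have h4 : S.ncard = S.toFinset.card := Set.ncard_eq_toFinset_card' S
  have h5 : Nat.card G = Nat.card H * (Finset.univ.filter fun g => f g = 0).card := by
    rw [Nat.card_eq_fintype_card, Nat.card_eq_fintype_card, ← Finset.card_univ, ← Finset.card_univ,
      ← h2]
    congr 1
    ext g
    simp
  rw [h3, h4, h1, h5]
  ring

theorem card_pts (κ : Type) [Field κ] [Finite κ] : Nat.card (Pts κ) = Nat.card κ + 1 :=
  Projectivization.card_of_finrank_two κ (Fin 2 → κ) (by simp)

theorem finite_pts (κ : Type) [Field κ] [Finite κ] : Finite (Pts κ) :=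
  (Projectivization.finite_iff_of_finite κ (Fin 2 → κ)).2 inferInstance

end JetE

open JetE in
/-- Equidistribution of the jets, if every family of jets occurs. -/
theorem card_jt_of (κ : Type) [Field κ] [Finite κ] {d q : ℕ} (hκ : Nat.card κ = q)
    (hs : ∀ α : Pts κ → Fin 3 → Fin 2 → κ, ∃ t : Fin (2 * (d + 1)) → κ, jt t = α)
    (S : Set (Pts κ → Fin 3 → Fin 2 → κ)) :
    {t : Fin (2 * (d + 1)) → κ | jt t ∈ S}.ncard * q ^ (6 * (q + 1)) =
      S.ncard * q ^ (2 * (d + 1)) := by
  subst hκ
  have := finite_pts κ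
  have h := card_pre (AddMonoidHom.mk' (jt (κ := κ) (d := d)) jt_add) hs S
  have h1 : Nat.card (Pts κ → Fin 3 → Fin 2 → κ) = Nat.card κ ^ (6 * (Nat.card κ + 1)) := by
    rw [Nat.card_fun, Nat.card_fun, Nat.card_fun, card_pts, Nat.card_fin, Nat.card_fin, ← pow_mul,
      ← pow_mul]
    congr 1
    ring
  have h2 : Nat.card (Fin (2 * (d + 1)) → κ) = Nat.card κ ^ (2 * (d + 1)) := by
    rw [Nat.card_fun, Nat.card_fin]
  rw [h1, h2] at h
  exact h

end Pool.Agent.LMD
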