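import Mathlib
import Pool.Agent.LMD.Jet
import Pool.Agent.LMD.JetA

set_option autoImplicit false

/-!
# Equidistribution of the jets
-/

namespace Pool.Agent.LMD

/-- LMD/JetE (4): equidistribution of the jets (from `jt_surj`, `jt` is additive) -/
theorem card_jt (κ : Type) [Field κ] [Finite κ] {d q : ℕ} (hκ : Nat.card κ = q) (hq : 5 ≤ q)
    (hd : 3 * q + 6 ≤ d) (S : Set (Pts κ → Fin 3 → Fin 2 → κ)) :
    {t : Fin (2 * (d + 1)) → κ | jt t ∈ S}.ncard * q ^ (6 * (q + 1)) =
      S.ncard * q ^ (2 * (d + 1)) :=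
  card_jt_of κ hκ (fun α => jt_surj κ (by omega) (by omega) α) S

end Pool.Agent.LMD
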