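import Mathlib

set_option autoImplicit false

/-!
# The proportion of the critical maps: numerics
-/

namespace Pool.Agent.LMD

theorem num (q : ℕ) (hq : 32 ≤ q) :
    1 / (20 * (q : ℝ)) ≤ (((q : ℝ) ^ 2 - 1) * ((q : ℝ) ^ 2 - q)) ^ (q + 1) * (q : ℝ) ^ (2 * q + 1) /
      (q : ℝ) ^ (6 * (q + 1)) - 1 / ((q : ℝ) * (q - 1)) := by
  have hq' : (32 : ℝ) ≤ q := by exact_mod_cast hq
  have hq0 : (0 : ℝ) < q := by linarith
  obtain ⟨x, hx⟩ : ∃ x : ℝ, x = 1 / (q : ℝ) := ⟨_, rfl⟩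
  have hx0 : 0 < x := by rw [hx]; positivity
  have hx1 : x ≤ 1 / 32 := by
    rw [hx]
    exact one_div_le_one_div_of_le (by norm_num) hq'
  have hxq : x * q = 1 := by rw [hx]; field_simp
  -- the first factor
  have h1 : (15 / 32 : ℝ) ^ 2 ≤ (1 - x) ^ (q + 1) := by
    obtain ⟨n, hn⟩ : ∃ n : ℕ, n = (q + 2) / 2 := ⟨_, rfl⟩
    have hn1 : q + 1 ≤ 2 * n := by omega
    have hn2 : 2 * n ≤ q + 2 := by omega
    have hn3 : 2 * (n : ℝ) ≤ q + 2 := by exact_mod_cast hn2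
    have h2 := one_add_mul_le_pow (a := -x) (by linarith) n
    have h3 : (15 / 32 : ℝ) ≤ 1 + (n : ℝ) * -x := by
      have h4 : (n : ℝ) * x ≤ (q + 2) / 2 * x := mul_le_mul_of_nonneg_right (by linarith) hx0.le
      nlinarith
    have h5 : (15 / 32 : ℝ) ≤ (1 - x) ^ n := by
      rw [sub_eq_add_neg]
      exact h3.trans h2
    calc (15 / 32 : ℝ) ^ 2 ≤ ((1 - x) ^ n) ^ 2 := pow_le_pow_left₀ (by norm_num) h5 2
      _ = (1 - x) ^ (2 * n) := by rw [← pow_mul, mul_comm]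
      _ ≤ (1 - x) ^ (q + 1) := pow_le_pow_of_le_one (by linarith) (by linarith) hn1
  -- the second factor
  have h2 : (15 / 16 : ℝ) ≤ (1 - x ^ 2) ^ (q + 1) := by
    have h3 := one_add_mul_le_pow (a := -x ^ 2) (by nlinarith) (q + 1)
    have h4 : (15 / 16 : ℝ) ≤ 1 + ((q + 1 : ℕ) : ℝ) * -x ^ 2 := by
      push_cast
      have h5 : ((q : ℝ) + 1) * x ^ 2 = x + x ^ 2 := by
        have : ((q : ℝ) + 1) * x ^ 2 = (x * q) * x + x ^ 2 := by ring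
        rw [this, hxq, one_mul]
      nlinarith
    rw [sub_eq_add_neg]
    exact h4.trans h3
  -- the quotient
  have h3 : (((q : ℝ) ^ 2 - 1) * ((q : ℝ) ^ 2 - q)) ^ (q + 1) * (q : ℝ) ^ (2 * q + 1) /
      (q : ℝ) ^ (6 * (q + 1)) = (1 - x ^ 2) ^ (q + 1) * (1 - x) ^ (q + 1) * x := by
    have e1 : (q : ℝ) ^ 2 - 1 = (q : ℝ) ^ 2 * (1 - x ^ 2) := by
      have : (q : ℝ) ^ 2 * x ^ 2 = 1 := by rw [← mul_pow, mul_comm, hxq, one_pow]
      rw [mul_sub, this, mul_one]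
    have e2 : (q : ℝ) ^ 2 - q = (q : ℝ) ^ 2 * (1 - x) := by
      have : (q : ℝ) ^ 2 * x = q := by rw [sq, mul_assoc, mul_comm (q : ℝ) x, hxq, mul_one]
      rw [mul_sub, this, mul_one]
    rw [e1, e2, div_eq_iff (by positivity)]
    have e3 : (q : ℝ) ^ (6 * (q + 1)) = (q : ℝ) ^ (4 * (q + 1)) * (q : ℝ) ^ (2 * q + 1) * q := by
      rw [← pow_add, ← pow_succ]
      congr 1
      ring
    have e4 : ((q : ℝ) ^ 2 * (1 - x ^ 2) * ((q : ℝ) ^ 2 * (1 - x))) ^ (q + 1) =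
        (q : ℝ) ^ (4 * (q + 1)) * ((1 - x ^ 2) ^ (q + 1) * (1 - x) ^ (q + 1)) := by
      have : (q : ℝ) ^ 2 * (1 - x ^ 2) * ((q : ℝ) ^ 2 * (1 - x)) =
          (q : ℝ) ^ 4 * ((1 - x ^ 2) * (1 - x)) := by ring
      rw [this, mul_pow, mul_pow, ← pow_mul]
    rw [e3, e4]
    linear_combination (-(q : ℝ) ^ (4 * (q + 1)) * ((1 - x ^ 2) ^ (q + 1) * (1 - x) ^ (q + 1)) *
      (q : ℝ) ^ (2 * q + 1)) * hxq
  rw [h3]
  have h4 : 1 / ((q : ℝ) * (q - 1)) ≤ x / 31 := by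
    rw [hx, div_div, div_le_div_iff₀ (by nlinarith) (by positivity)]
    nlinarith
  have h5 : (15 / 16 : ℝ) * (15 / 32) ^ 2 ≤ (1 - x ^ 2) ^ (q + 1) * (1 - x) ^ (q + 1) :=
    mul_le_mul h2 h1 (by norm_num) (by linarith)
  have h6 : (15 / 16 : ℝ) * (15 / 32) ^ 2 * x ≤ (1 - x ^ 2) ^ (q + 1) * (1 - x) ^ (q + 1) * x :=
    mul_le_mul_of_nonneg_right h5 hx0.le
  have h7 : 1 / (20 * (q : ℝ)) = x / 20 := by
    rw [hx]
    field_simp
  rw [h7]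
  nlinarith

end Pool.Agent.LMD
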