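import Mathlib
import Pool.Agent.LMD.Defs
import Pool.Agent.AAP.TpA

set_option autoImplicit false

/-!
# The cycles through the critical point have local degree two
-/

namespace Pool.Agent.LMD

open Pool.Agent.PNH (Tup app mp)
open Pool.Agent.AAP (wd near tp fm)
open Pool.Agent.AAP.Ex3A (W)

namespace Ord

open PowerSeries (C constantCoeff)

variable {κ : Type} [Field κ] {d : ℕ}

theorem wd_map' {A B : Type} [CommRing A] [CommRing B] (f : A →+* B) (x y : Fin 2 → A) :
    wd (fun i => f (x i)) (fun i => f (y i)) = f (wd x y) := by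
  simp [wd]

/-- one step near a point, in the power series -/
theorem step_eq (F : Tup 1 κ) (hF : ∀ i, (F i).IsHomogeneous d) (y u : Fin 2 → κ)
    (hyu : wd y u = 1) (G : Fin 2 → PowerSeries κ) (a s : PowerSeries κ)
    (ha : wd G (fun i => C (u i)) = a) (hs : wd (fun i => C (y i)) G = a * s) :
    ∃ R : Fin 2 → PowerSeries κ, ∀ i, app (mp (C : κ →+* PowerSeries κ) F) G i =
      a ^ d * (C ((near F 1 y u i).coeff 0) + s * (C ((near F 1 y u i).coeff 1) +
        s * (C ((near F 1 y u i).coeff 2) + s * R i))) := by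
  have hyu' : (C (y 0) : PowerSeries κ) * C (u 1) - C (y 1) * C (u 0) = 1 := by
    rw [← map_mul, ← map_mul, ← map_sub]
    have : y 0 * u 1 - y 1 * u 0 = 1 := hyu
    rw [this, map_one]
  unfold wd at ha hs
  have hG : G = a • fun i => (C (y i) : PowerSeries κ) + s * C (u i) := by
    funext i
    simp only [Pi.smul_apply, smul_eq_mul]
    fin_cases i
    · change G 0 = a * (C (y 0) + s * C (u 0))
      have h1 : a * (C (y 0) + s * C (u 0)) = a * C (y 0) + a * s * C (u 0) := by ring
      rw [h1, ← hs, ← ha]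
      linear_combination (-(G 0)) * hyu'
    · change G 1 = a * (C (y 1) + s * C (u 1))
      have h1 : a * (C (y 1) + s * C (u 1)) = a * C (y 1) + a * s * C (u 1) := by ring
      rw [h1, ← hs, ← ha]
      linear_combination (-(G 1)) * hyu'
  let φ : Polynomial κ →+* PowerSeries κ := Polynomial.eval₂RingHom C s
  have hφC : ∀ r : κ, φ (Polynomial.C r) = C r := fun r => by simp [φ]
  have hφX : φ Polynomial.X = s := by simp [φ]
  have hmp : mp (C : κ →+* PowerSeries κ) F = mp φ (mp (Polynomial.C : κ →+* Polynomial κ) F) := by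
    rw [PNH.mp_mp]
    congr 1
    ext r : 1
    simp [hφC]
  refine ⟨fun i => φ (Polynomial.divX (Polynomial.divX (Polynomial.divX (near F 1 y u i)))),
    fun i => ?_⟩
  rw [hG, PNH.app_smul d _ (fun i => PNH.hom_mp d _ F hF i)]
  have hv : (fun i => (C (y i) : PowerSeries κ) + s * C (u i)) =
      fun i => φ (Polynomial.C (y i) + Polynomial.X * Polynomial.C (u i)) := by
    funext i
    rw [map_add, map_mul, hφC, hφC, hφX]
  rw [hv, hmp, PNH.app_mp]
  simp only [Pi.smul_apply, smul_eq_mul]
  congr 1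
  change φ (near F 1 y u i) = _
  generalize near F 1 y u i = P
  have h0 : P = Polynomial.divX P * Polynomial.X + Polynomial.C (P.coeff 0) :=
    (Polynomial.divX_mul_X_add P).symm
  have h1 : Polynomial.divX P = Polynomial.divX (Polynomial.divX P) * Polynomial.X +
      Polynomial.C (P.coeff 1) := by
    have := (Polynomial.divX_mul_X_add (Polynomial.divX P)).symm
    rwa [Polynomial.coeff_divX] at this
  have h2 : Polynomial.divX (Polynomial.divX P) =
      Polynomial.divX (Polynomial.divX (Polynomial.divX P)) * Polynomial.X +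
      Polynomial.C (P.coeff 2) := by
    have := (Polynomial.divX_mul_X_add (Polynomial.divX (Polynomial.divX P))).symm
    rwa [Polynomial.coeff_divX, Polynomial.coeff_divX] at this
  have e0 := congrArg φ h0
  have e1 := congrArg φ h1
  have e2 := congrArg φ h2
  rw [map_add, map_mul, hφC, hφX] at e0 e1 e2
  rw [e0, e1, e2]
  ring

/-- the value is the constant coefficient -/
theorem jt_zero (t : Fin (2 * (d + 1)) → κ) (x : Pts κ) :
    jt t x 0 = app (tp (d := d) t) x.rep := by
  funext i
  change (near (tp (d := d) t) 1 x.rep (cu x.rep) i).coeff 0 = _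
  rw [Polynomial.coeff_zero_eq_eval_zero]
  change Polynomial.evalRingHom 0 (app (mp Polynomial.C (tp (d := d) t)) (fun i =>
    Polynomial.C (x.rep i) + Polynomial.X * Polynomial.C (cu x.rep i)) i) = _
  have h := PNH.app_mp (Polynomial.evalRingHom (0 : κ)) (mp Polynomial.C (tp (d := d) t))
    (fun i => Polynomial.C (x.rep i) + Polynomial.X * Polynomial.C (cu x.rep i))
  rw [← congrFun h i, PNH.mp_mp]
  have h1 : (Polynomial.evalRingHom (0 : κ)).comp Polynomial.C = RingHom.id κ := by
    ext r
    simp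
  rw [h1]
  have h2 : mp (RingHom.id κ) (tp (d := d) t) = tp (d := d) t := by
    funext j
    exact MvPolynomial.map_id _
  rw [h2]
  congr 1
  funext j
  simp

/-- the map of the points -/
noncomputable def ff (t : Fin (2 * (d + 1)) → κ) (x : Pts κ) : Pts κ := cls x (jt t x 0)

theorem ff_mk (t : Fin (2 * (d + 1)) → κ) (h0 : ∀ x, jt t x 0 ≠ 0) (v : Fin 2 → κ) (hv : v ≠ 0) :
    ∃ h' : app (tp (d := d) t) v ≠ 0, ff t (Projectivization.mk κ v hv) =
      Projectivization.mk κ (app (tp (d := d) t) v) h' := by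
  obtain ⟨a, ha⟩ := Projectivization.exists_smul_eq_mk_rep κ v hv
  have h1 := h0 (Projectivization.mk κ v hv)
  have h2 : jt t (Projectivization.mk κ v hv) 0 = (a : κ) ^ d • app (tp (d := d) t) v := by
    rw [jt_zero, ← ha]
    exact PNH.app_smul d _ (AAP.PosA.hom_tp t) (a : κ) v
  have h3 : app (tp (d := d) t) v ≠ 0 := by
    intro h
    rw [h, smul_zero] at h2
    exact h1 h2
  refine ⟨h3, ?_⟩
  unfold ff cls
  rw [dif_pos h1, Projectivization.mk_eq_mk_iff']
  exact ⟨(a : κ) ^ d, h2.symm⟩

theorem iter_mk (t : Fin (2 * (d + 1)) → κ) (h0 : ∀ x, jt t x 0 ≠ 0) (n : ℕ) :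
    ∀ (v : Fin 2 → κ) (hv : v ≠ 0), ∃ h' : (app (tp (d := d) t))^[n] v ≠ 0,
      (ff t)^[n] (Projectivization.mk κ v hv) =
      Projectivization.mk κ ((app (tp (d := d) t))^[n] v) h' := by
  induction n with
  | zero => exact fun v hv => ⟨hv, rfl⟩
  | succ n ih =>
    intro v hv
    obtain ⟨h1, e1⟩ := ff_mk t h0 v hv
    obtain ⟨h2, e2⟩ := ih _ h1
    exact ⟨h2, by rw [Function.iterate_succ_apply, e1, e2]; rfl⟩

/-- one step of the order -/
theorem step {t : Fin (2 * (d + 1)) → κ} {c : Pts κ} (h : Gj c (jt t)) (x : Pts κ)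
    (G : Fin 2 → PowerSeries κ) (m : ℕ) (hm : 1 ≤ m)
    (ha : constantCoeff (wd G fun i => C (cu x.rep i)) ≠ 0)
    (b : PowerSeries κ) (hb : constantCoeff b ≠ 0)
    (hG : wd (fun i => C (x.rep i)) G = PowerSeries.X ^ m * b) :
    constantCoeff (wd (app (mp (C : κ →+* PowerSeries κ) (tp (d := d) t)) G)
      fun i => C (cu (ff t x).rep i)) ≠ 0 ∧
    ∀ m', ((x = c → m' = 2 * m) ∧ (x ≠ c → m' = m)) → ∃ b' : PowerSeries κ,
      constantCoeff b' ≠ 0 ∧
      wd (fun i => C ((ff t x).rep i)) (app (mp (C : κ →+* PowerSeries κ) (tp (d := d) t)) G) =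
        PowerSeries.X ^ m' * b' := by
  classical
  obtain ⟨hA0, hA1, hc1, hc2, -⟩ := h
  have hx' : ff t x = Projectivization.mk κ (jt t x 0) (hA0 x) := by
    unfold ff cls
    rw [dif_pos (hA0 x)]
  obtain ⟨l, hl⟩ := Projectivization.exists_smul_eq_mk_rep κ (jt t x 0) (hA0 x)
  rw [← hx'] at hl
  have hl' : ∀ i, (ff t x).rep i = (l : κ) * jt t x 0 i := fun i => by
    rw [← hl]
    rfl
  have hl0 : (l : κ) ≠ 0 := l.ne_zero
  set u' := cu (ff t x).rep with hu'
  have hwu : wd (ff t x).rep u' = 1 := wd_cu (Projectivization.rep_nonzero _)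
  set a := wd G (fun i => C (cu x.rep i)) with hadef
  have hau : IsUnit a := PowerSeries.isUnit_iff_constantCoeff.2 (isUnit_iff_ne_zero.2 ha)
  obtain ⟨a', haa'⟩ := hau.exists_right_inv
  have ha'0 : constantCoeff a' ≠ 0 := by
    intro h
    have := congrArg constantCoeff haa'
    rw [map_mul, h, mul_zero, map_one] at this
    exact zero_ne_one this
  obtain ⟨s, hs, hsm⟩ : ∃ s : PowerSeries κ, wd (fun i => C (x.rep i)) G = a * s ∧
      s = PowerSeries.X ^ m * (b * a') := by
    refine ⟨PowerSeries.X ^ m * (b * a'), ?_, rfl⟩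
    rw [hG]
    linear_combination (-(PowerSeries.X ^ m * b)) * haa'
  have hs0 : constantCoeff s = 0 := by
    rw [hsm, map_mul, map_pow, PowerSeries.constantCoeff_X, zero_pow (by omega), zero_mul]
  obtain ⟨R, hR⟩ := step_eq (d := d) (tp (d := d) t) (AAP.PosA.hom_tp t) x.rep (cu x.rep)
    (wd_cu (Projectivization.rep_nonzero _)) G a s rfl hs
  have hj : ∀ (j : Fin 3) i, (near (tp (d := d) t) 1 x.rep (cu x.rep) i).coeff (j : ℕ) =
      jt t x j i := fun _ _ => rfl
  have hR' : ∀ i, app (mp (C : κ →+* PowerSeries κ) (tp (d := d) t)) G i =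
      a ^ d * (C (jt t x 0 i) + s * (C (jt t x 1 i) + s * (C (jt t x 2 i) + s * R i))) := hR
  set G' := app (mp (C : κ →+* PowerSeries κ) (tp (d := d) t)) G with hG'
  constructor
  · have e1 : constantCoeff (wd G' fun i => C (u' i)) =
        constantCoeff a ^ d * wd (jt t x 0) u' := by
      unfold wd
      rw [map_sub, map_mul, map_mul, hR', hR']
      simp only [map_mul, map_add, map_pow, hs0, PowerSeries.constantCoeff_C]
      ring
    have e2 : (l : κ) * wd (jt t x 0) u' = 1 := by
      rw [← hwu]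
      unfold wd
      rw [hl', hl']
      ring
    rw [e1]
    refine mul_ne_zero (pow_ne_zero _ ha) ?_
    intro h
    rw [h, mul_zero] at e2
    exact zero_ne_one e2
  · intro m' hm'
    have e1 : wd (fun i => C ((ff t x).rep i)) G' = a ^ d * (s * (C ((l : κ) *
        wd (jt t x 0) (jt t x 1)) + s * (C ((l : κ) * wd (jt t x 0) (jt t x 2)) +
        s * (C (l : κ) * (C (jt t x 0 0) * R 1 - C (jt t x 0 1) * R 0))))) := by
      unfold wd
      simp only [hR', hl', map_mul, map_sub]
      ring
    rw [e1]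
    by_cases hxc : x = c
    · replace hm' := hm'.1 hxc
      subst hxc
      have e2 : wd (jt t x 0) (jt t x 1) = 0 := by
        have : wd (jt t x 0) (jt t x 1) = -wd (jt t x 1) (jt t x 0) := by
          unfold wd
          ring
        rw [this, hc1, neg_zero]
      have e3 : wd (jt t x 0) (jt t x 2) ≠ 0 := by
        have : wd (jt t x 0) (jt t x 2) = -wd (jt t x 2) (jt t x 0) := by
          unfold wd
          ring
        rw [this]
        exact neg_ne_zero.2 hc2
      refine ⟨a ^ d * (b * a') ^ 2 * (C ((l : κ) * wd (jt t x 0) (jt t x 2)) +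
        s * (C (l : κ) * (C (jt t x 0 0) * R 1 - C (jt t x 0 1) * R 0))), ?_, ?_⟩
      · simp only [map_mul, map_add, map_pow, hs0, PowerSeries.constantCoeff_C, zero_mul,
          add_zero]
        exact mul_ne_zero (mul_ne_zero (pow_ne_zero _ ha) (pow_ne_zero _ (mul_ne_zero hb ha'0)))
          (mul_ne_zero hl0 e3)
      · rw [e2, mul_zero, map_zero, zero_add, hm', mul_comm 2 m, pow_mul]
        generalize (C ((l : κ) * wd (jt t x 0) (jt t x 2)) +
          s * (C (l : κ) * (C (jt t x 0 0) * R 1 - C (jt t x 0 1) * R 0))) = Q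
        rw [hsm]
        ring
    · replace hm' := hm'.2 hxc
      have e3 : wd (jt t x 0) (jt t x 1) ≠ 0 := by
        have : wd (jt t x 0) (jt t x 1) = -wd (jt t x 1) (jt t x 0) := by
          unfold wd
          ring
        rw [this]
        exact neg_ne_zero.2 (hA1 x hxc)
      refine ⟨a ^ d * (b * a') * (C ((l : κ) * wd (jt t x 0) (jt t x 1)) +
        s * (C ((l : κ) * wd (jt t x 0) (jt t x 2)) +
        s * (C (l : κ) * (C (jt t x 0 0) * R 1 - C (jt t x 0 1) * R 0)))), ?_, ?_⟩
      · simp only [map_mul, map_add, map_pow, hs0, PowerSeries.constantCoeff_C, zero_mul,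
          add_zero]
        exact mul_ne_zero (mul_ne_zero (pow_ne_zero _ ha) (mul_ne_zero hb ha'0))
          (mul_ne_zero hl0 e3)
      · generalize (C ((l : κ) * wd (jt t x 0) (jt t x 1)) +
          s * (C ((l : κ) * wd (jt t x 0) (jt t x 2)) +
          s * (C (l : κ) * (C (jt t x 0 0) * R 1 - C (jt t x 0 1) * R 0)))) = Q
        rw [hsm, hm']
        ring

/-- the order along the orbit -/
theorem orbit {t : Fin (2 * (d + 1)) → κ} {c : Pts κ} (h : Gj c (jt t)) (x : Pts κ)
    (G : Fin 2 → PowerSeries κ)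
    (ha : constantCoeff (wd G fun i => C (cu x.rep i)) ≠ 0)
    (hG : wd (fun i => C (x.rep i)) G = PowerSeries.X) (k : ℕ)
    [DecidablePred fun i => (ff t)^[i] x = c] :
    constantCoeff (wd ((app (mp (C : κ →+* PowerSeries κ) (tp (d := d) t)))^[k] G)
      fun i => C (cu ((ff t)^[k] x).rep i)) ≠ 0 ∧
    ∃ b : PowerSeries κ, constantCoeff b ≠ 0 ∧
      wd (fun i => C (((ff t)^[k] x).rep i))
        ((app (mp (C : κ →+* PowerSeries κ) (tp (d := d) t)))^[k] G) =
        PowerSeries.X ^ (2 ^ ((Finset.range k).filter fun i => (ff t)^[i] x = c).card) * b := by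
  induction k with
  | zero => exact ⟨ha, 1, by simp, by simpa using hG⟩
  | succ k ih =>
    obtain ⟨h1, b, hb, h2⟩ := ih
    obtain ⟨h3, h4⟩ := step h _ _ _ (Nat.one_le_two_pow) h1 b hb h2
    rw [Function.iterate_succ_apply', Function.iterate_succ_apply']
    refine ⟨h3, h4 _ ⟨fun hc => ?_, fun hc => ?_⟩⟩
    · rw [Finset.range_add_one, Finset.filter_insert, if_pos hc,
        Finset.card_insert_of_notMem (by simp), pow_succ']
    · rw [Finset.range_add_one, Finset.filter_insert, if_neg hc]

end Ord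

open Polynomial in
/-- LMD/Ord (6): the cycles through the critical point have local degree two -/
theorem crit_of {κ : Type} [Field κ] {d : ℕ} (t : Fin (2 * (d + 1)) → κ) (c : Pts κ)
    (h : Gj c (jt t)) (z : Fin 2 → κ) (hz : z ≠ 0) (n : ℕ) (hn : 0 < n)
    (hper : wd ((app (tp (d := d) t))^[n] z) z = 0) :
    ∃ N : ℕ, 0 < N ∧ ∃ u : Fin 2 → κ, wd z u ≠ 0 ∧
      (∀ j < 2, (W (tp (d := d) t) N z u).coeff j = 0) ∧ (W (tp (d := d) t) N z u).coeff 2 ≠ 0 := by
  classical
  set f := Ord.ff t with hf
  set x0 : Pts κ := Projectivization.mk κ z hz with hx0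
  obtain ⟨a, ha⟩ := Projectivization.exists_smul_eq_mk_rep κ z hz
  rw [← hx0] at ha
  have ha0 : (a : κ) ≠ 0 := a.ne_zero
  have ha' : ∀ i, x0.rep i = (a : κ) * z i := fun i => by
    rw [← ha]
    rfl
  -- `x0` is periodic
  have hpp : Function.IsPeriodicPt f n x0 := by
    obtain ⟨h1, e1⟩ := Ord.iter_mk t h.1 n z hz
    change f^[n] x0 = x0
    rw [hf, hx0, e1, Projectivization.mk_eq_mk_iff']
    -- `∃ a, a • z = F^n z`
    unfold wd at hper
    by_cases hz0 : z 0 = 0
    · have hz1 : z 1 ≠ 0 := fun h1 => hz (by funext i; fin_cases i; exacts [hz0, h1])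
      have h2 : (app (tp (d := d) t))^[n] z 0 = 0 := by
        rw [hz0, mul_zero, sub_zero] at hper
        exact (mul_eq_zero.1 hper).resolve_right hz1
      refine ⟨(app (tp (d := d) t))^[n] z 1 / z 1, ?_⟩
      funext i
      fin_cases i
      · simp [hz0, h2]
      · simp [hz1]
    · refine ⟨(app (tp (d := d) t))^[n] z 0 / z 0, ?_⟩
      funext i
      fin_cases i
      · simp [hz0]
      · change (app (tp (d := d) t))^[n] z 0 / z 0 * z 1 = (app (tp (d := d) t))^[n] z 1
        rw [div_mul_eq_mul_div, div_eq_iff hz0]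
        linear_combination hper
  set N := Function.minimalPeriod f x0 with hN
  have hN0 : 0 < N := hpp.minimalPeriod_pos hn
  obtain ⟨n0, hn0⟩ := h.2.2.2.2 x0
  change f^[n0] x0 = c at hn0
  have hcard : ((Finset.range N).filter fun i => f^[i] x0 = c).card = 1 := by
    rw [Finset.card_eq_one]
    refine ⟨n0 % N, ?_⟩
    ext i
    simp only [Finset.mem_filter, Finset.mem_range, Finset.mem_singleton]
    constructor
    · rintro ⟨h1, h2⟩
      rw [← hn0, ← Function.iterate_mod_minimalPeriod_eq (n := n0)] at h2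
      exact (Function.iterate_eq_iterate_iff_of_lt_minimalPeriod h1 (Nat.mod_lt _ hN0)).1 h2
    · rintro rfl
      exact ⟨Nat.mod_lt _ hN0, by rw [hN, Function.iterate_mod_minimalPeriod_eq, hn0]⟩
  set u := cu x0.rep with hu
  have hwu : wd x0.rep u = 1 := wd_cu (Projectivization.rep_nonzero _)
  have hwz : (a : κ) * wd z u = 1 := by
    rw [← hwu]
    unfold wd
    rw [ha', ha']
    ring
  have hwz0 : wd z u ≠ 0 := fun h0 => by
    rw [h0, mul_zero] at hwz
    exact zero_ne_one hwz
  refine ⟨N, hN0, u, hwz0, ?_⟩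
  -- the power series
  set G : Fin 2 → PowerSeries κ := fun i =>
    Polynomial.coeToPowerSeries.ringHom (Polynomial.C (z i) + Polynomial.X * Polynomial.C (u i))
    with hGdef
  have hGi : ∀ i, G i = PowerSeries.C (z i) + PowerSeries.X * PowerSeries.C (u i) := fun i => by
    simp only [hGdef, map_add, map_mul, Polynomial.coeToPowerSeries.ringHom_apply,
      Polynomial.coe_C, Polynomial.coe_X]
  have hGa : PowerSeries.constantCoeff (wd G fun i => PowerSeries.C (cu x0.rep i)) ≠ 0 := by
    have : PowerSeries.constantCoeff (wd G fun i => PowerSeries.C (cu x0.rep i)) = wd z u := by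
      unfold wd
      simp [hGi, hu]
    rw [this]
    exact hwz0
  have hGX : wd (fun i => PowerSeries.C (x0.rep i)) G = PowerSeries.X := by
    have h1 : wd (fun i => PowerSeries.C (x0.rep i)) G =
        PowerSeries.X * PowerSeries.C ((a : κ) * wd z u) := by
      unfold wd
      simp only [hGi, ha', map_mul, map_sub]
      ring
    rw [h1, hwz, map_one, mul_one]
  obtain ⟨-, b, hb, hW⟩ := Ord.orbit h x0 G hGa hGX N
  rw [hcard, pow_one] at hW
  have hNx : (Ord.ff t)^[N] x0 = x0 := Function.iterate_minimalPeriod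
  rw [hNx] at hW
  -- the polynomial `W` in the power series
  have hGN : (app (mp (PowerSeries.C : κ →+* PowerSeries κ) (tp (d := d) t)))^[N] G =
      fun i => Polynomial.coeToPowerSeries.ringHom (near (tp (d := d) t) N z u i) := by
    have hmp : mp (PowerSeries.C : κ →+* PowerSeries κ) (tp (d := d) t) =
        mp (Polynomial.coeToPowerSeries.ringHom) (mp (Polynomial.C : κ →+* κ[X])
          (tp (d := d) t)) := by
      rw [PNH.mp_mp]
      congr 1
      ext r : 1
      simp
    rw [hmp, hGdef, PNH.iter_mp]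
    rfl
  have hWp : Polynomial.coeToPowerSeries.ringHom (W (tp (d := d) t) N z u) =
      PowerSeries.X ^ 2 * (PowerSeries.C (-(a : κ)⁻¹) * b) := by
    have h1 : Polynomial.coeToPowerSeries.ringHom (W (tp (d := d) t) N z u) =
        wd ((app (mp (PowerSeries.C : κ →+* PowerSeries κ) (tp (d := d) t)))^[N] G)
          fun i => PowerSeries.C (z i) := by
      rw [hGN]
      unfold W wd
      simp
    have h2 : wd ((app (mp (PowerSeries.C : κ →+* PowerSeries κ) (tp (d := d) t)))^[N] G)
          (fun i => PowerSeries.C (z i)) = PowerSeries.C (-(a : κ)⁻¹) *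
        wd (fun i => PowerSeries.C (x0.rep i))
          ((app (mp (PowerSeries.C : κ →+* PowerSeries κ) (tp (d := d) t)))^[N] G) := by
      generalize (app (mp (PowerSeries.C : κ →+* PowerSeries κ) (tp (d := d) t)))^[N] G = H
      have h3 : (PowerSeries.C (-(a : κ)⁻¹) : PowerSeries κ) * PowerSeries.C (a : κ) = -1 := by
        rw [← map_mul, neg_mul, inv_mul_cancel₀ ha0, map_neg, map_one]
      unfold wd
      simp only [ha', map_mul]
      linear_combination (-(PowerSeries.C (z 0) * H 1 - PowerSeries.C (z 1) * H 0)) * h3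
    rw [h1, h2, hW]
    ring
  have hco : ∀ j, (W (tp (d := d) t) N z u).coeff j =
      PowerSeries.coeff j (PowerSeries.X ^ 2 * (PowerSeries.C (-(a : κ)⁻¹) * b)) := fun j => by
    rw [← hWp]
    exact (Polynomial.coeff_coe _ _).symm
  constructor
  · intro j hj
    rw [hco, PowerSeries.coeff_X_pow_mul', if_neg (by omega)]
  · rw [hco, PowerSeries.coeff_X_pow_mul', if_pos le_rfl, Nat.sub_self,
      PowerSeries.coeff_zero_eq_constantCoeff, map_mul, PowerSeries.constantCoeff_C]
    exact mul_ne_zero (neg_ne_zero.2 (inv_ne_zero ha0)) hb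

end Pool.Agent.LMD
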