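import Mathlib
import Pool.Agent.LMD.Defs
import Pool.Agent.LMD.Num
import Pool.Agent.LMD.JetC
import Pool.Agent.LMD.JetE
import Pool.Agent.LMD.Cpr
import Pool.Agent.LMD.Ord
import Pool.Agent.AAP.TpA
import Pool.Agent.AAP.Cmv

set_option autoImplicit false

/-!
# The number of the critical maps over a finite field
-/

namespace Pool.Agent.LMD

open Polynomial
open Pool.Agent.PNH (Tup app mp IsMor Cert)
open Pool.Agent.AAP (wd near tp fm wd_smul_left wd_self)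
open Pool.Agent.AAP.Ex3A (W)

namespace CntA

variable {κ : Type} [Field κ]

/-- the constant coefficient of the jet is the value -/
theorem jt_zero {d : ℕ} (t : Fin (2 * (d + 1)) → κ) (x : Pts κ) :
    jt t x 0 = app (tp (d := d) t) x.rep := by
  have h0 : ∀ a : Fin 2 → κ, (wd (near (tp (d := d) t) 1 x.rep (cu x.rep)) fun i => C (a i)).coeff 0 =
      wd (app (tp (d := d) t) x.rep) a := fun a =>
    AAP.CmvA.coeff_zero_near (tp (d := d) t) 1 x.rep (cu x.rep) a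
  have h1 := h0 ![0, 1]
  have h2 := h0 ![-1, 0]
  unfold wd at h1 h2
  simp only [coeff_sub, coeff_mul_C, Matrix.cons_val_zero, Matrix.cons_val_one, mul_zero, mul_one,
    sub_zero, zero_sub, mul_neg, neg_neg] at h1 h2
  funext i
  fin_cases i
  · exact h1
  · exact h2

/-- no rational zero -/
theorem app_ne {d : ℕ} (t : Fin (2 * (d + 1)) → κ) (h : ∀ x, jt t x 0 ≠ 0) (z : Fin 2 → κ)
    (hz : z ≠ 0) : app (tp (d := d) t) z ≠ 0 := by
  intro h0
  have h1 := h (Projectivization.mk κ z hz)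
  rw [jt_zero] at h1
  obtain ⟨c, hc⟩ := Projectivization.exists_smul_eq_mk_rep κ z hz
  rw [← hc] at h1
  apply h1
  have h2 := AAP.app_smul (AAP.PosA.hom_tp (d := d) t) (c : κ) z
  rw [Units.smul_def, h2, h0, smul_zero]

end CntA

open CntA

theorem card_crit (κ : Type) [Field κ] [Finite κ] {d q : ℕ} (hκ : Nat.card κ = q) (hq : 32 ≤ q)
    (hd : 3 * q + 6 ≤ d) :
    (1 / (20 * (q : ℝ))) * (q : ℝ) ^ (2 * (d + 1)) ≤
      ({t : Fin (2 * (d + 1)) → κ | Crit (tp (d := d) t)}.ncard : ℝ) := by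
  classical
  have hq' : (32 : ℝ) ≤ q := by exact_mod_cast hq
  have hq0 : (0 : ℝ) < q := by linarith
  obtain ⟨G, hG⟩ : ∃ G : Set (Fin (2 * (d + 1)) → κ), G = {t | ∃ c, Gj c (jt t)} := ⟨_, rfl⟩
  obtain ⟨B, hB⟩ : ∃ B : Set (Fin (2 * (d + 1)) → κ), B = {t |
      (∀ z : Fin 2 → κ, z ≠ 0 → app (tp (d := d) t) z ≠ 0) ∧
      ¬ ∃ e : ℕ, ∀ j, (MvPolynomial.X j : MvPolynomial (Fin 2) κ) ^ e ∈
        Ideal.span (Set.range (tp (d := d) t))} := ⟨_, rfl⟩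
  have h1 : G ⊆ {t : Fin (2 * (d + 1)) → κ | Crit (tp (d := d) t)} ∪ B := by
    intro t ht
    rw [hG] at ht
    obtain ⟨c, hc⟩ := ht
    by_cases he : ∃ e : ℕ, ∀ j, (MvPolynomial.X j : MvPolynomial (Fin 2) κ) ^ e ∈
        Ideal.span (Set.range (tp (d := d) t))
    · left
      exact ⟨he, fun z hz ⟨n, hn, hper⟩ => crit_of t c hc z hz n hn hper⟩
    · right
      rw [hB]
      exact ⟨fun z hz => app_ne t hc.1 z hz, he⟩
  have h2 : (G.ncard : ℝ) ≤ ({t : Fin (2 * (d + 1)) → κ | Crit (tp (d := d) t)}.ncard : ℝ) + (B.ncard : ℝ) := by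
    exact_mod_cast (Set.ncard_le_ncard h1 (Set.toFinite _)).trans (Set.ncard_union_le _ _)
  have h3 : (G.ncard : ℝ) = (((q : ℝ) ^ 2 - 1) * ((q : ℝ) ^ 2 - q)) ^ (q + 1) *
      (q : ℝ) ^ (2 * q + 1) / (q : ℝ) ^ (6 * (q + 1)) * (q : ℝ) ^ (2 * (d + 1)) := by
    have h4 := card_jt κ (d := d) hκ (by omega) hd
      ({α | ∃ c, Gj c α} : Set (Pts κ → Fin 3 → Fin 2 → κ))
    rw [card_Gj κ hκ] at h4
    have h5 : G.ncard * q ^ (6 * (q + 1)) =
        ((q ^ 2 - 1) * (q ^ 2 - q)) ^ (q + 1) * q ^ (2 * q + 1) * q ^ (2 * (d + 1)) := by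
      rw [hG]
      exact h4
    have h6 := congrArg (Nat.cast (R := ℝ)) h5
    push_cast [Nat.cast_sub (show 1 ≤ q ^ 2 from Nat.one_le_pow _ _ (by omega)),
      Nat.cast_sub (show q ≤ q ^ 2 by nlinarith)] at h6
    rw [div_mul_eq_mul_div, eq_div_iff (by positivity)]
    exact h6
  have h4 : (B.ncard : ℝ) ≤ 1 / ((q : ℝ) * (q - 1)) * (q : ℝ) ^ (2 * (d + 1)) := by
    have h5 := card_cpr κ (d := d) (by omega) hκ
    have h6 : B.ncard * (q * (q - 1)) ≤ q ^ (2 * (d + 1)) := by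
      rw [hB]
      exact h5
    have h7 : (B.ncard : ℝ) * ((q : ℝ) * (q - 1)) ≤ (q : ℝ) ^ (2 * (d + 1)) := by
      have h8 : ((B.ncard * (q * (q - 1)) : ℕ) : ℝ) ≤ ((q ^ (2 * (d + 1)) : ℕ) : ℝ) := by
        exact_mod_cast h6
      push_cast [Nat.cast_sub (show 1 ≤ q by omega)] at h8
      exact h8
    rw [one_div, inv_mul_eq_div, le_div_iff₀ (by nlinarith)]
    exact h7
  have h5 := num q hq
  have h6 : 1 / (20 * (q : ℝ)) * (q : ℝ) ^ (2 * (d + 1)) ≤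
      ((((q : ℝ) ^ 2 - 1) * ((q : ℝ) ^ 2 - q)) ^ (q + 1) * (q : ℝ) ^ (2 * q + 1) /
      (q : ℝ) ^ (6 * (q + 1)) - 1 / ((q : ℝ) * (q - 1))) * (q : ℝ) ^ (2 * (d + 1)) :=
    mul_le_mul_of_nonneg_right h5 (by positivity)
  rw [sub_mul, ← h3] at h6
  linarith

end Pool.Agent.LMD
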