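import Mathlib
import Pool.Agent.PLY.Ctr
import Pool.Agent.PLY.Fre

set_option autoImplicit false

/-!
# Maps with constant reduction without base points
-/

namespace Pool.Agent.LMD

open NumberField IsDedekindDomain
open scoped WithZero
open Pool.Agent.PNH (Tup app mp IsMor Cert)
open Pool.Agent.AAP
open Pool.Agent.TameArb (PosDens)

/-- the criterion for integral coefficients -/
theorem contr_dens {K : Type} [Field K] [NumberField K] {d : ℕ} (hd : 2 ≤ d)
    (v : HeightOneSpectrum (𝓞 K)) (t : Fin (2 * (d + 1)) → 𝓞 K)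
    (h0 : ∀ j : Fin (d + 1), t (finProdFinEquiv (0, j)) ∈ v.asIdeal)
    (h1 : ∀ z : Fin 2 → 𝓞 K ⧸ v.asIdeal, z ≠ 0 → MvPolynomial.eval z
      (fm fun j : Fin (d + 1) => Ideal.Quotient.mk v.asIdeal (t (finProdFinEquiv (1, j)))) ≠ 0)
    (hmor : IsMor d K (tp (d := d) fun i => (t i : K))) (Γ : Finset (Fin 2 → K))
    (hΓ : ∀ x ∈ Γ, x ≠ 0 ∧ ¬ Periodic (tp (d := d) fun i => (t i : K)) x) :
    PosDens (SP (tp (d := d) fun i => (t i : K)) Γ) := by
  refine PLY.contr hd hmor v 0 1 (by decide) (fun m => ?_) (fun m => ?_) (fun x hx => ?_) Γ hΓ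
  · exact PLY.coeff_lt (fun j => (v.valuation_lt_one_iff_mem (K := K) _).2 (h0 j)) m
  · exact PLY.coeff_le (fun j => v.valuation_le_one _) m
  · exact PLY.unit_of_free v (fun j : Fin (d + 1) => t (finProdFinEquiv (1, j))) h1 x hx

end Pool.Agent.LMD
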