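import Mathlib
import Pool.Agent.NDE.Mer

set_option autoImplicit false

/-!
# The sum of the reciprocals of the norms of the primes is unbounded
-/

namespace Pool.Agent.LMD

open NumberField IsDedekindDomain
open Pool.Agent.NDE (up nm mem_up two_le_nm mertens)

namespace Mrt

variable (K : Type) [Field K] [NumberField K]

open Classical in
/-- the sum over a long range -/
theorem range_ge : ∃ x₀ : ℝ, 1 ≤ x₀ ∧ ∀ x : ℝ, x₀ ≤ x →
    1 / 4 ≤ ∑ v ∈ up K (x ^ 2) \ up K x, (nm v)⁻¹ := by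
  obtain ⟨C, hC⟩ := mertens K
  have hC0 : 0 ≤ C := (abs_nonneg _).trans (hC 1 le_rfl)
  refine ⟨Real.exp (4 * C + 1), Real.one_le_exp (by linarith), fun x hx => ?_⟩
  have hx0 : 0 < x := (Real.exp_pos _).trans_le hx
  have hx1 : 1 ≤ x := (Real.one_le_exp (by linarith)).trans hx
  have hlog : 4 * C + 1 ≤ Real.log x := by
    rw [← Real.log_exp (4 * C + 1)]
    exact Real.log_le_log (Real.exp_pos _) hx
  have hsq : x ≤ x ^ 2 := by nlinarith
  have hsub : up K x ⊆ up K (x ^ 2) := fun v hv => mem_up.2 ((mem_up.1 hv).trans hsq)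
  have h1 := hC x hx1
  have h2 := hC (x ^ 2) (hx1.trans hsq)
  rw [Real.log_pow] at h2
  rw [abs_le] at h1 h2
  have h3 := Finset.sum_sdiff (f := fun v => Real.log (nm v) / nm v) hsub
  have h4 : ∑ v ∈ up K (x ^ 2) \ up K x, Real.log (nm v) / nm v ≤
      (2 * Real.log x) * ∑ v ∈ up K (x ^ 2) \ up K x, (nm v)⁻¹ := by
    rw [Finset.mul_sum]
    refine Finset.sum_le_sum fun v hv => ?_
    have h5 := mem_up.1 (Finset.mem_sdiff.1 hv).1
    have h6 := two_le_nm v
    rw [div_eq_mul_inv]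
    refine mul_le_mul_of_nonneg_right ?_ (by positivity)
    have h7 := Real.log_le_log (by linarith) h5
    rw [Real.log_pow] at h7
    push_cast at h7
    exact h7
  push_cast at h2
  have h8 : 0 < Real.log x := by linarith
  by_contra hcon
  push Not at hcon
  have h9 : (2 * Real.log x) * ∑ v ∈ up K (x ^ 2) \ up K x, (nm v)⁻¹ <
      (2 * Real.log x) * (1 / 4) := mul_lt_mul_of_pos_left hcon (by linarith)
  linarith [h1.1, h1.2, h2.1, h2.2]

/-- the primes above `2` have small norm -/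
theorem norm_two (v : HeightOneSpectrum (𝓞 K)) (h : (2 : 𝓞 K ⧸ v.asIdeal) = 0) :
    nm v ≤ (Ideal.absNorm (Ideal.span {(2 : 𝓞 K)}) : ℝ) := by
  have h1 : (2 : 𝓞 K) ∈ v.asIdeal := by
    rw [← Ideal.Quotient.eq_zero_iff_mem, map_ofNat]
    exact h
  have h2 : Ideal.span {(2 : 𝓞 K)} ≤ v.asIdeal := by
    rw [Ideal.span_singleton_le_iff_mem]
    exact h1
  have h3 := Ideal.absNorm_dvd_absNorm_of_le h2
  have h4 : 0 < Ideal.absNorm (Ideal.span {(2 : 𝓞 K)}) := by
    rw [Nat.pos_iff_ne_zero, Ne, Ideal.absNorm_eq_zero_iff, Ideal.span_singleton_eq_bot]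
    exact two_ne_zero
  unfold nm
  exact_mod_cast Nat.le_of_dvd h4 h3

theorem step (n : ℕ) : ∃ V : Finset (HeightOneSpectrum (𝓞 K)),
    (∀ v ∈ V, 32 ≤ Ideal.absNorm v.asIdeal ∧ (2 : 𝓞 K ⧸ v.asIdeal) ≠ 0) ∧
      (n : ℝ) * (1 / 4) ≤ ∑ v ∈ V, (nm v)⁻¹ := by
  classical
  induction n with
  | zero => exact ⟨∅, by simp, by simp⟩
  | succ n ih =>
    obtain ⟨V, hV, hsum⟩ := ih
    obtain ⟨x₀, -, hx₀⟩ := range_ge K
    obtain ⟨x, hx⟩ : ∃ x : ℝ, x = max x₀ (max 32
      (max (Ideal.absNorm (Ideal.span {(2 : 𝓞 K)}) : ℝ) (∑ v ∈ V, nm v))) := ⟨_, rfl⟩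
    have h1 : x₀ ≤ x := hx ▸ le_max_left _ _
    have h2 : 32 ≤ x := hx ▸ (le_max_left _ _).trans (le_max_right _ _)
    have h3 : (Ideal.absNorm (Ideal.span {(2 : 𝓞 K)}) : ℝ) ≤ x :=
      hx ▸ ((le_max_left _ _).trans (le_max_right _ _)).trans (le_max_right _ _)
    have h4 : ∑ v ∈ V, nm v ≤ x :=
      hx ▸ ((le_max_right _ _).trans (le_max_right _ _)).trans (le_max_right _ _)
    have hdis : Disjoint V (up K (x ^ 2) \ up K x) := by
      rw [Finset.disjoint_left]
      intro v hv hv'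
      refine (Finset.mem_sdiff.1 hv').2 (mem_up.2 (le_trans ?_ h4))
      exact Finset.single_le_sum (f := fun v => nm v)
        (fun w _ => by have := two_le_nm w; linarith) hv
    refine ⟨V ∪ (up K (x ^ 2) \ up K x), fun v hv => ?_, ?_⟩
    · rcases Finset.mem_union.1 hv with hv | hv
      · exact hV v hv
      · have h5 : ¬ nm v ≤ x := fun h => (Finset.mem_sdiff.1 hv).2 (mem_up.2 h)
        push Not at h5
        refine ⟨?_, fun h => ?_⟩
        · have h6 : (32 : ℝ) < (Ideal.absNorm v.asIdeal : ℝ) := h2.trans_lt h5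
          have h7 : 32 < Ideal.absNorm v.asIdeal := by exact_mod_cast h6
          exact h7.le
        · have := norm_two K v h
          linarith
    · rw [Finset.sum_union hdis]
      have := hx₀ x h1
      push_cast
      linarith

end Mrt

/-- the sum of the reciprocals of the norms of the large odd primes is unbounded -/
theorem exists_primes (K : Type) [Field K] [NumberField K] (B : ℝ) :
    ∃ V : Finset (HeightOneSpectrum (𝓞 K)), (∀ v ∈ V, 32 ≤ Ideal.absNorm v.asIdeal ∧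
      (2 : 𝓞 K ⧸ v.asIdeal) ≠ 0) ∧ B ≤ ∑ v ∈ V, (Ideal.absNorm v.asIdeal : ℝ)⁻¹ := by
  obtain ⟨n, hn⟩ := exists_nat_ge (4 * B)
  obtain ⟨V, hV, h⟩ := Mrt.step K n
  refine ⟨V, hV, le_trans (by linarith) h⟩

end Pool.Agent.LMD
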