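import Mathlib
import Pool.Agent.AAP.Siv

set_option autoImplicit false

/-!
# LMD/SvF: the sieve with a finite set of primes
-/

namespace Pool.Agent.LMD

open NumberField IsDedekindDomain
open Pool.Agent.AAP (vc)
open Pool.Agent.AAP.SivA
open Pool.Agent.FAM (Cube)

/-- LMD/SvF (8): the sieve with a finite set of primes (as `AAP.sieve`) -/
theorem sieve_fin {K : Type} [Field K] [NumberField K] {r m R : ℕ}
    (ω : Module.Basis (Fin m) ℤ (𝓞 K)) (e : Fin R ≃ Fin r × Fin m)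
    (V : Finset (HeightOneSpectrum (𝓞 K)))
    (A : ∀ v : HeightOneSpectrum (𝓞 K), Set (Fin r → 𝓞 K ⧸ v.asIdeal))
    (δ : HeightOneSpectrum (𝓞 K) → ℝ)
    (h1 : ∀ v ∈ V, ((A v).ncard : ℝ) ≤ (1 - δ v) * (Ideal.absNorm v.asIdeal : ℝ) ^ r)
    (ε : ℝ) (hε : 0 < ε) :
    ∃ H₀ : ℕ, ∀ H : ℕ, H₀ ≤ H →
      (((Cube R H : Set (Fin R → ℤ)) ∩ {s : Fin R → ℤ | ∀ v ∈ V,
        (fun i => Ideal.Quotient.mk v.asIdeal (vc ω e s i)) ∈ A v}).ncard : ℝ) ≤
        (Real.exp (-∑ v ∈ V, δ v) + ε) * (2 * (H : ℝ) + 1) ^ R := by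
  classical
  have hfin : ∀ v : HeightOneSpectrum (𝓞 K), Finite (𝓞 K ⧸ v.asIdeal) := fun v =>
    Ideal.finiteQuotientOfFreeOfNeBot v.asIdeal v.ne_bot
  have hcard : ∀ v : HeightOneSpectrum (𝓞 K),
      Nat.card (Fin r → 𝓞 K ⧸ v.asIdeal) = Ideal.absNorm v.asIdeal ^ r := by
    intro v
    rw [Nat.card_fun, Nat.card_fin, Ideal.absNorm_apply]
    rfl
  obtain ⟨T, hT⟩ : ∃ T : Set (∀ v : V, Fin r → 𝓞 K ⧸ v.1.asIdeal),
    T = Set.pi Set.univ fun v : V => A v.1 := ⟨_, rfl⟩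
  obtain ⟨H₀, hH⟩ := Pool.Agent.AAP.equ (ps ω e V) (ps_surj ω e V) T ε hε
  refine ⟨H₀, fun H hH0 => ?_⟩
  have h4 := hH H hH0
  have h5 : (T.ncard : ℝ) / Nat.card (∀ v : V, Fin r → 𝓞 K ⧸ v.1.asIdeal) ≤
      Real.exp (-∑ v ∈ V, δ v) := by
    have h7 : (T.ncard : ℝ) = ∏ v : V, ((A v.1).ncard : ℝ) := by
      rw [← Nat.card_coe_set_eq, hT, Nat.card_congr (Equiv.Set.univPi fun v : V => A v.1),
        Nat.card_pi, Nat.cast_prod]
      exact Finset.prod_congr rfl fun v _ => by rw [Nat.card_coe_set_eq]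
    have h8 : (Nat.card (∀ v : V, Fin r → 𝓞 K ⧸ v.1.asIdeal) : ℝ) =
        ∏ v : V, (Ideal.absNorm v.1.asIdeal : ℝ) ^ r := by
      rw [Nat.card_pi, Nat.cast_prod]
      exact Finset.prod_congr rfl fun v _ => by rw [hcard, Nat.cast_pow]
    rw [h7, h8, ← Finset.prod_div_distrib]
    have h9 : ∀ v : V, ((A v.1).ncard : ℝ) / (Ideal.absNorm v.1.asIdeal : ℝ) ^ r ≤
        Real.exp (-δ v.1) := by
      intro v
      have h10 : (0 : ℝ) < (Ideal.absNorm v.1.asIdeal : ℝ) := by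
        have := Pool.Agent.TameArb.two_le_norm K v.1
        exact_mod_cast (by omega : 0 < Ideal.absNorm v.1.asIdeal)
      rw [div_le_iff₀ (pow_pos h10 r)]
      refine (h1 v.1 v.2).trans (mul_le_mul_of_nonneg_right ?_ (pow_pos h10 r).le)
      have := Real.add_one_le_exp (-δ v.1)
      linarith
    calc ∏ v : V, ((A v.1).ncard : ℝ) / (Ideal.absNorm v.1.asIdeal : ℝ) ^ r
        ≤ ∏ v : V, Real.exp (-δ v.1) :=
          Finset.prod_le_prod (fun v _ => by positivity) fun v _ => h9 v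
      _ = Real.exp (-∑ v ∈ V, δ v) := by
          rw [← Real.exp_sum, Finset.sum_neg_distrib, Finset.sum_coe_sort V δ]
  have h6 : ((Cube R H : Set (Fin R → ℤ)) ∩
      {s : Fin R → ℤ | ∀ v ∈ V, (fun i => Ideal.Quotient.mk v.asIdeal (vc ω e s i)) ∈ A v}).ncard ≤
      ((Cube R H).filter fun s => ps ω e V s ∈ T).card := by
    rw [← Set.ncard_coe_finset]
    refine Set.ncard_le_ncard ?_ (Finset.finite_toSet _)
    rintro s ⟨hs1, hs2⟩
    rw [Finset.coe_filter]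
    refine ⟨hs1, ?_⟩
    rw [hT]
    exact fun v _ => hs2 v.1 v.2
  calc (((Cube R H : Set (Fin R → ℤ)) ∩ {s : Fin R → ℤ |
        ∀ v ∈ V, (fun i => Ideal.Quotient.mk v.asIdeal (vc ω e s i)) ∈ A v}).ncard : ℝ)
      ≤ _ := by exact_mod_cast h6
    _ ≤ _ := h4
    _ ≤ (Real.exp (-∑ v ∈ V, δ v) + ε) * (2 * (H : ℝ) + 1) ^ R :=
        mul_le_mul_of_nonneg_right (add_le_add_left h5 _) (by positivity)

end Pool.Agent.LMD
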