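import Mathlib
import Pool.Agent.LMD.Defs
import Pool.Agent.AAP.NMp
import Pool.Agent.AAP.SA
import Pool.Agent.AAP.PosH

set_option autoImplicit false

/-!
# Critical maps: from the residue field to the number field
-/

namespace Pool.Agent.LMD

open Polynomial NumberField IsDedekindDomain
open scoped WithZero
open Pool.Agent.PNH (Tup app mp IsMor Cert)
open Pool.Agent.AAP
open Pool.Agent.AAP.Ex3A (W W_map exists_cof mem_of_pow mem_smul deg_w hom_O coeff_O exists_O
  res_ne coeff_mem mem_max)
open Pool.Agent.TameArb (PosDens)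

namespace TrfA

section Nak

variable {O : Type} [CommRing O] [IsLocalRing O]

/-- a form over the residue field lifts -/
theorem exists_lift {k : ℕ} {P : MvPolynomial (Fin 2) (IsLocalRing.ResidueField O)}
    (hP : P.IsHomogeneous k) : ∃ Q : MvPolynomial (Fin 2) O, Q.IsHomogeneous k ∧
      MvPolynomial.map (IsLocalRing.residue O) Q = P := by
  classical
  choose s hs using IsLocalRing.residue_surjective (R := O)
  refine ⟨∑ m ∈ P.support, MvPolynomial.monomial m (s (P.coeff m)), ?_, ?_⟩
  · refine MvPolynomial.IsHomogeneous.sum _ _ _ fun m hm => ?_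
    refine MvPolynomial.isHomogeneous_monomial _ ?_
    have h1 := hP (MvPolynomial.mem_support_iff.1 hm)
    rwa [deg_w] at h1
  · rw [map_sum]
    conv_rhs => rw [P.as_sum]
    refine Finset.sum_congr rfl fun m _ => ?_
    rw [MvPolynomial.map_monomial, hs]

/-- Nakayama from the residue field -/
theorem nak_res {d : ℕ} {F : Tup 1 O} (hF : ∀ i, (F i).IsHomogeneous d)
    (h : ∃ s : ℕ, ∀ j, (MvPolynomial.X j : MvPolynomial (Fin 2) (IsLocalRing.ResidueField O)) ^ s ∈
      Ideal.span (Set.range (mp (IsLocalRing.residue O) F))) :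
    ∃ e : ℕ, ∀ j, (MvPolynomial.X j : MvPolynomial (Fin 2) O) ^ e ∈
      Ideal.span (Set.range F) := by
  obtain ⟨s, hs⟩ := h
  obtain ⟨e, he⟩ : ∃ e, e = d + (s + s) := ⟨_, rfl⟩
  obtain ⟨N, hN⟩ : ∃ N : Submodule O (MvPolynomial (Fin 2) O),
    N = (Ideal.span (Set.range F)).restrictScalars O := ⟨_, rfl⟩
  have hFr : ∀ i, (mp (IsLocalRing.residue O) F i).IsHomogeneous d := fun i => (hF i).map _
  have hmono : ∀ m : Fin 2 →₀ ℕ, m.degree = e → MvPolynomial.monomial m (1 : O) ∈
      N ⊔ IsLocalRing.maximalIdeal O • MvPolynomial.homogeneousSubmodule (Fin 2) O e := by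
    intro m hm
    have h1 : MvPolynomial.monomial m (1 : IsLocalRing.ResidueField O) ∈
        Ideal.span (Set.range (mp (IsLocalRing.residue O) F)) :=
      mem_of_pow (s := fun _ => s) hs (by omega)
    have h2 : (MvPolynomial.monomial m (1 : IsLocalRing.ResidueField O)).IsHomogeneous
        (d + (s + s)) := MvPolynomial.isHomogeneous_monomial _ (hm.trans he)
    obtain ⟨G', hG', hGE⟩ := exists_cof hFr h2 h1
    choose G hG hGG using fun i => exists_lift (hG' i)
    have h3 : MvPolynomial.monomial m (1 : O) = ∑ i, G i * F i +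
        (MvPolynomial.monomial m (1 : O) - ∑ i, G i * F i) := by ring
    rw [h3]
    refine Submodule.add_mem_sup ?_ ?_
    · rw [hN]
      change ∑ i, G i * F i ∈ Ideal.span (Set.range F)
      exact Ideal.sum_mem _ fun i _ => Ideal.mul_mem_left _ _ (Ideal.subset_span ⟨i, rfl⟩)
    · refine mem_smul ?_ fun m' => ?_
      · refine (MvPolynomial.isHomogeneous_monomial _ hm).sub ?_
        refine MvPolynomial.IsHomogeneous.sum _ _ _ fun i _ => ?_
        have h4 := (hG i).mul (hF i)
        rwa [show s + s + d = e by omega] at h4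
      · rw [← IsLocalRing.residue_eq_zero_iff, ← MvPolynomial.coeff_map, map_sub, map_sum,
          MvPolynomial.map_monomial, map_one, ← hGE]
        have h4 : ∑ i, MvPolynomial.map (IsLocalRing.residue O) (G i * F i) =
            ∑ i, G' i * mp (IsLocalRing.residue O) F i := by
          refine Finset.sum_congr rfl fun i _ => ?_
          rw [map_mul, hGG]
          rfl
        rw [h4, sub_self, MvPolynomial.coeff_zero]
  have hle : MvPolynomial.homogeneousSubmodule (Fin 2) O e ≤
      N ⊔ IsLocalRing.maximalIdeal O • MvPolynomial.homogeneousSubmodule (Fin 2) O e := by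
    intro P hP
    rw [MvPolynomial.mem_homogeneousSubmodule] at hP
    rw [P.as_sum]
    refine Submodule.sum_mem _ fun m hm => ?_
    have h1 : MvPolynomial.monomial m (P.coeff m) = P.coeff m • MvPolynomial.monomial m (1 : O) := by
      rw [MvPolynomial.smul_monomial, smul_eq_mul, mul_one]
    rw [h1]
    refine Submodule.smul_mem _ _ (hmono m ?_)
    rw [← deg_w]
    exact hP (MvPolynomial.mem_support_iff.1 hm)
  have h5 := Submodule.le_of_le_smul_of_le_jacobson_bot
    (MvPolynomial.homogeneousSubmodule_fg (σ := Fin 2) (R := O) e)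
    (IsLocalRing.maximalIdeal_le_jacobson ⊥) hle
  refine ⟨e, fun j => ?_⟩
  have h7 : (MvPolynomial.X j : MvPolynomial (Fin 2) O) ^ e ∈ N := h5 (by
    rw [MvPolynomial.mem_homogeneousSubmodule]
    have h6 := (MvPolynomial.isHomogeneous_X O j).pow e
    rwa [one_mul] at h6)
  rw [hN] at h7
  exact h7

end Nak

section Rdn

variable {K : Type} [Field K] {v : Valuation K ℤᵐ⁰}

/-- good reduction from the residue field -/
theorem good_of {d : ℕ} {F : Tup 1 K} (hF : ∀ i, (F i).IsHomogeneous d) (hI : IntT v F)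
    {F' : Tup 1 v.valuationSubring} (hF' : mp v.valuationSubring.subtype F' = F)
    (h : ∃ s : ℕ, ∀ j, (MvPolynomial.X j :
      MvPolynomial (Fin 2) (IsLocalRing.ResidueField v.valuationSubring)) ^ s ∈
      Ideal.span (Set.range (mp (IsLocalRing.residue v.valuationSubring) F'))) : Good v F := by
  obtain ⟨e, he⟩ := nak_res (hom_O v hF' hF) h
  refine ⟨hI, e, fun j => ?_⟩
  obtain ⟨c, hc⟩ := Ideal.mem_span_range_iff_exists_fun.1 (he j)
  refine ⟨mp v.valuationSubring.subtype c, fun i m => ?_, ?_⟩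
  · unfold mp
    rw [MvPolynomial.coeff_map]
    exact (FrbA.mem_O v).1 ((c i).coeff m).2
  · have h1 := congrArg (MvPolynomial.map v.valuationSubring.subtype) hc
    rw [map_sum, map_pow, MvPolynomial.map_X] at h1
    rw [← h1]
    refine Finset.sum_congr rfl fun i _ => ?_
    rw [map_mul]
    conv_lhs => rw [← hF']
    rfl

/-- the local degree from the residue field -/
theorem sat_res {F : Tup 1 K} {F' : Tup 1 v.valuationSubring}
    (hF' : mp v.valuationSubring.subtype F' = F) {x : Fin 2 → K}
    {y u : Fin 2 → v.valuationSubring} (hxy : wd x (fun i => (y i : K)) = 0)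
    (hy : nv v (fun i => (y i : K)) = 1)
    (hpq : wd (fun i => IsLocalRing.residue v.valuationSubring (y i))
      (fun i => IsLocalRing.residue v.valuationSubring (u i)) ≠ 0) {N : ℕ}
    (h0 : ∀ j < 2, (W (mp (IsLocalRing.residue v.valuationSubring) F') N
      (fun i => IsLocalRing.residue v.valuationSubring (y i))
      (fun i => IsLocalRing.residue v.valuationSubring (u i))).coeff j = 0)
    (h2 : (W (mp (IsLocalRing.residue v.valuationSubring) F') N
      (fun i => IsLocalRing.residue v.valuationSubring (y i))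
      (fun i => IsLocalRing.residue v.valuationSubring (u i))).coeff 2 ≠ 0) : SAt v F x N 2 := by
  have h1 : W F N (fun i => (y i : K)) (fun i => (u i : K)) =
      (W F' N y u).map v.valuationSubring.subtype := by
    rw [← W_map, hF']
    rfl
  rw [W_map] at h0 h2
  have h4 : ∀ j, (wd (near F N (fun i => (y i : K)) (fun i => (u i : K)))
      fun i => C ((fun i => (y i : K)) i)).coeff j =
      (((W F' N y u).coeff j : v.valuationSubring) : K) := by
    intro j
    have h5 := congrArg (fun P => coeff P j) h1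
    simp only [coeff_map] at h5
    exact h5
  refine ⟨fun i => (y i : K), fun i => (u i : K), hxy, hy, ?_, ?_, ?_, ?_⟩
  · exact max_le ((FrbA.mem_O v).1 (u 0).2) ((FrbA.mem_O v).1 (u 1).2)
  · have h5 : IsLocalRing.residue v.valuationSubring (wd y u) ≠ 0 := by
      rw [← wd_map]
      exact hpq
    have h6 := res_ne h5
    have h7 : ((wd y u : v.valuationSubring) : K) = wd (fun i => (y i : K)) (fun i => (u i : K)) :=
      (wd_map v.valuationSubring.subtype y u).symm
    rwa [h7] at h6
  · intro j hj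
    rw [h4, ← FrbA.residue_eq_zero]
    have := h0 j hj
    rwa [coeff_map] at this
  · rw [h4]
    refine res_ne ?_
    rwa [coeff_map] at h2

/-- periodic modulo `v`: the reduction is periodic -/
theorem per_res {d : ℕ} {F : Tup 1 K} (hF : ∀ i, (F i).IsHomogeneous d) (hG : Good v F)
    {F' : Tup 1 v.valuationSubring}
    (hF' : mp v.valuationSubring.subtype F' = F)
    {y : Fin 2 → v.valuationSubring}
    (hy : nv v (fun i => (y i : K)) = 1)
    (h : PerMod v F (fun i => (y i : K))) :
    ∃ n : ℕ, 0 < n ∧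
      wd ((app (mp (IsLocalRing.residue v.valuationSubring) F'))^[n]
        (fun i => IsLocalRing.residue v.valuationSubring (y i)))
        (fun i => IsLocalRing.residue v.valuationSubring (y i)) = 0 := by
  obtain ⟨n, hn, hcg⟩ := h
  refine ⟨n, hn, ?_⟩
  have hy0 : (fun i => (y i : K)) ≠ 0 := by
    intro h0
    rw [h0, nv_eq_zero.2 rfl] at hy
    exact zero_ne_one hy
  have h1 : (app F)^[n] (fun i => (y i : K)) =
      fun i => (((app F')^[n] y i : v.valuationSubring) : K) := by
    rw [← hF']
    exact PNH.iter_mp v.valuationSubring.subtype F' n y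
  unfold Cg at hcg
  rw [good_iter_nv hF hG n hy0, hy, one_pow, one_mul, h1] at hcg
  have h2 : wd (fun i => (((app F')^[n] y i : v.valuationSubring) : K)) (fun i => (y i : K)) =
      ((wd ((app F')^[n] y) y : v.valuationSubring) : K) :=
    wd_map v.valuationSubring.subtype _ _
  rw [h2, ← FrbA.residue_eq_zero, ← wd_map] at hcg
  rw [PNH.iter_mp]
  exact hcg

end Rdn

section Ring

/-- change of the ring in the first part of `Crit` -/
theorem map_pow_mem {A B : Type} [CommRing A] [CommRing B] (f : A →+* B) {F : Tup 1 A} {e : ℕ}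
    {j : Fin 2} (h : (MvPolynomial.X j : MvPolynomial (Fin 2) A) ^ e ∈ Ideal.span (Set.range F)) :
    (MvPolynomial.X j : MvPolynomial (Fin 2) B) ^ e ∈ Ideal.span (Set.range (mp f F)) := by
  obtain ⟨c, hc⟩ := Ideal.mem_span_range_iff_exists_fun.1 h
  rw [Ideal.mem_span_range_iff_exists_fun]
  refine ⟨fun i => MvPolynomial.map f (c i), ?_⟩
  have h1 := congrArg (MvPolynomial.map f) hc
  rw [map_sum, map_pow, MvPolynomial.map_X] at h1
  rw [← h1]
  exact Finset.sum_congr rfl fun i _ => (map_mul _ _ _).symm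

theorem mp_tp {A B : Type} [CommRing A] [CommRing B] (f : A →+* B) {d : ℕ}
    (t : Fin (2 * (d + 1)) → A) : mp f (tp (d := d) t) = tp (d := d) fun i => f (t i) := by
  funext i
  unfold mp tp fm
  simp only [map_sum, map_mul, map_pow, MvPolynomial.map_C, MvPolynomial.map_X]

end Ring

end TrfA

open TrfA

theorem transfer {K : Type} [Field K] [NumberField K] {d : ℕ} (hd : 2 ≤ d)
    (v : HeightOneSpectrum (𝓞 K)) (t : Fin (2 * (d + 1)) → 𝓞 K)
    (h2 : (2 : 𝓞 K ⧸ v.asIdeal) ≠ 0)
    (h : Crit (tp (d := d) fun i => Ideal.Quotient.mk v.asIdeal (t i))) :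
    IsMor d K (tp (d := d) fun i => (t i : K)) ∧
      ∀ Γ : Finset (Fin 2 → K),
        (∀ x ∈ Γ, x ≠ 0 ∧ ¬ Periodic (tp (d := d) fun i => (t i : K)) x) →
        PosDens (SP (tp (d := d) fun i => (t i : K)) Γ) := by
  classical
  have hmax : v.asIdeal.IsMaximal := v.isMaximal
  let _ : Field (𝓞 K ⧸ v.asIdeal) := Ideal.Quotient.field v.asIdeal
  obtain ⟨O, hO⟩ : ∃ O, O = (v.valuation K).valuationSubring := ⟨_, rfl⟩
  -- the algebraic integers in the valuation ring
  let ι : 𝓞 K →+* (v.valuation K).valuationSubring :=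
    (algebraMap (𝓞 K) K).codRestrict (v.valuation K).valuationSubring.toSubring
      fun a => (FrbA.mem_O (v.valuation K)).2 (v.valuation_le_one a)
  have hι : ∀ a : 𝓞 K, ((ι a : (v.valuation K).valuationSubring) : K) = (a : K) := fun a => rfl
  let θ : 𝓞 K ⧸ v.asIdeal →+* IsLocalRing.ResidueField (v.valuation K).valuationSubring :=
    Ideal.Quotient.lift v.asIdeal ((IsLocalRing.residue (v.valuation K).valuationSubring).comp ι)
      fun a ha => by
        change IsLocalRing.residue (v.valuation K).valuationSubring (ι a) = 0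
        rw [FrbA.residue_eq_zero, hι]
        exact (v.valuation_lt_one_iff_mem (K := K) a).2 ha
  have hθ : ∀ a : 𝓞 K, θ (Ideal.Quotient.mk v.asIdeal a) =
      IsLocalRing.residue (v.valuation K).valuationSubring (ι a) := fun a => rfl
  have hθi : Function.Injective θ := θ.injective
  have hθs : Function.Surjective θ := by
    intro b
    obtain ⟨a, rfl⟩ := IsLocalRing.residue_surjective b
    obtain ⟨c, hc⟩ := NMpA.exists_int v ((FrbA.mem_O (v.valuation K)).1 a.2)
    refine ⟨Ideal.Quotient.mk v.asIdeal c, ?_⟩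
    rw [hθ, ← sub_eq_zero, ← map_sub, FrbA.residue_eq_zero]
    change v.valuation K ((c : K) - (a : K)) < 1
    rw [Valuation.map_sub_swap]
    exact hc
  -- the tuples
  obtain ⟨F, hFd⟩ : ∃ F : Tup 1 K, F = tp (d := d) fun i => (t i : K) := ⟨_, rfl⟩
  obtain ⟨F', hFd'⟩ : ∃ F' : Tup 1 (v.valuation K).valuationSubring,
    F' = tp (d := d) fun i => ι (t i) := ⟨_, rfl⟩
  obtain ⟨E, hE⟩ : ∃ E : Tup 1 (𝓞 K ⧸ v.asIdeal),
    E = tp (d := d) fun i => Ideal.Quotient.mk v.asIdeal (t i) := ⟨_, rfl⟩
  rw [← hE] at h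
  rw [← hFd]
  have hF' : mp (v.valuation K).valuationSubring.subtype F' = F := by
    rw [hFd', hFd, mp_tp]
    rfl
  have hEr : mp (IsLocalRing.residue (v.valuation K).valuationSubring) F' = mp θ E := by
    rw [hFd', hE, mp_tp, mp_tp]
    rfl
  have hF : ∀ i, (F i).IsHomogeneous d := by
    rw [hFd]
    exact PosA.hom_tp _
  have hI : IntT (v.valuation K) F := by
    rw [hFd]
    exact NMpA.int_tp v t
  obtain ⟨⟨e, he⟩, hper⟩ := h
  have hG : Good (v.valuation K) F := good_of hF hI hF' ⟨e, fun j => by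
    rw [hEr]
    exact map_pow_mem θ (he j)⟩
  have hmor : IsMor d K F := PosHA.good_mor hF hG
  refine ⟨hmor, fun Γ hΓ => ?_⟩
  -- the residue characteristic
  obtain ⟨p, hp, hpv⟩ : ∃ p : ℕ, p.Prime ∧ v.valuation K (p : K) < 1 := by
    have hfin : Finite (𝓞 K ⧸ v.asIdeal) := Ideal.finiteQuotientOfFreeOfNeBot _ v.ne_bot
    obtain ⟨p, hp⟩ := CharP.exists (𝓞 K ⧸ v.asIdeal)
    have hp1 : p.Prime := CharP.char_is_prime (𝓞 K ⧸ v.asIdeal) p
    refine ⟨p, hp1, ?_⟩
    have h3 : ((p : ℕ) : 𝓞 K) ∈ v.asIdeal := by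
      rw [← Ideal.Quotient.eq_zero_iff_mem, map_natCast]
      exact CharP.cast_eq_zero _ p
    have h4 := (v.valuation_lt_one_iff_mem (K := K) _).2 h3
    have h5 : ((p : ℕ) : K) = ((p : 𝓞 K) : K) := (map_natCast (algebraMap (𝓞 K) K) p).symm
    rw [h5]
    exact h4
  have hp2 : ¬ p ∣ 2 := by
    intro h3
    have h4 : p = 2 := (Nat.prime_dvd_prime_iff_eq hp Nat.prime_two).1 h3
    apply h2
    have h5 : ((p : ℕ) : K) = ((p : 𝓞 K) : K) := (map_natCast (algebraMap (𝓞 K) K) p).symm
    rw [h5, v.valuation_lt_one_iff_mem (K := K)] at hpv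
    rw [← Ideal.Quotient.eq_zero_iff_mem, h4] at hpv
    rw [← hpv]
    rw [map_natCast]
    norm_num
  refine dens_sa hd hmor v hG hp hpv Γ (fun x hx => (hΓ x hx).1) fun x hx => ?_
  by_cases hPM : PerMod (v.valuation K) F x
  swap
  · exact Or.inl hPM
  right
  obtain ⟨hx0, hxp⟩ := hΓ x hx
  refine ⟨hxp, ?_⟩
  obtain ⟨c, hc, h1, i, hi⟩ := exists_unitv (v := v.valuation K) hx0
  obtain ⟨y, hyx⟩ : ∃ y : Fin 2 → (v.valuation K).valuationSubring,
      (fun j => (y j : K)) = c • x :=
    ⟨fun j => ⟨(c • x) j, (FrbA.mem_O (v.valuation K)).2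
      (h1 ▸ le_nv (v := v.valuation K) (c • x) j)⟩, rfl⟩
  have hy1 : nv (v.valuation K) (fun j => (y j : K)) = 1 := hyx ▸ h1
  have hxy : wd x (fun i => (y i : K)) = 0 := by
    rw [hyx, wd_smul_right, wd_self, mul_zero]
  have hPM' : PerMod (v.valuation K) F (fun j => (y j : K)) := by
    rw [hyx]
    exact (PerMod.smul hF hc x).2 hPM
  obtain ⟨n, hn, hn2⟩ := per_res hF hG hF' hy1 hPM'
  choose z hz using fun j => hθs (IsLocalRing.residue (v.valuation K).valuationSubring (y j))
  have hz' : (fun j => IsLocalRing.residue (v.valuation K).valuationSubring (y j)) =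
      fun j => θ (z j) := funext fun j => (hz j).symm
  have hz0 : z ≠ 0 := by
    intro h0
    have h3 : (y i : K) = 1 := by
      have := congrFun hyx i
      rw [this]
      exact hi
    have h4 : y i = 1 := Subtype.ext h3
    have h5 := hz i
    rw [h4, map_one, h0, Pi.zero_apply, map_zero] at h5
    exact zero_ne_one h5
  obtain ⟨N, hN, u, hzu, h0, h3⟩ := hper z hz0 ⟨n, hn, by
    apply hθi
    rw [map_zero, ← hn2, hEr, hz', PNH.iter_mp]
    exact (wd_map θ _ _).symm⟩
  choose w hw using fun j => IsLocalRing.residue_surjective (R := (v.valuation K).valuationSubring)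
    (θ (u j))
  have hw' : (fun j => IsLocalRing.residue (v.valuation K).valuationSubring (w j)) =
      fun j => θ (u j) := funext hw
  refine ⟨N, 2, hN, le_rfl, hp2, ?_⟩
  refine sat_res (y := y) (u := w) hF' hxy hy1 ?_ ?_ ?_
  · rw [hz', hw', wd_map]
    exact fun h4 => hzu (hθi (h4.trans (map_zero θ).symm))
  · intro j hj
    rw [hEr, hz', hw', W_map, coeff_map, h0 j hj, map_zero]
  · rw [hEr, hz', hw', W_map, coeff_map]
    exact fun h4 => h3 (hθi (h4.trans (map_zero θ).symm))

end Pool.Agent.LMD
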