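import Mathlib
import Pool.Agent.LMD.Cnt
import Pool.Agent.LMD.Trf
import Pool.Agent.LMD.SvF
import Pool.Agent.LMD.Mrt
import Pool.Agent.AAP.Fin

set_option autoImplicit false

/-!
# Almost all maps, as the degree tends to infinity
-/

namespace Pool.Agent.LMD

open Polynomial NumberField IsDedekindDomain
open Pool.Agent.PNH (Tup app mp IsMor Cert)
open Pool.Agent.AAP (wd near tp fm vc SP Periodic)
open Pool.Agent.TameArb (PosDens)
open Pool.Agent.FAM (Cube mem_Cube card_Cube)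

namespace FinA

variable {K : Type} [Field K] [NumberField K] {r m R : ℕ} (ω : Module.Basis (Fin m) ℤ (𝓞 K))
  (e : Fin R ≃ Fin r × Fin m)

theorem repr_vc (s : Fin R → ℤ) (i : Fin r) (j : Fin m) :
    ω.repr (vc ω e s i) j = s (e.symm (i, j)) := by
  unfold vc
  rw [ω.repr_sum_self fun j => s (e.symm (i, j))]

theorem vc_inj : Function.Injective (vc ω e : (Fin R → ℤ) → Fin r → 𝓞 K) := by
  intro s t h
  funext l
  have h1 := repr_vc ω e s (e l).1 (e l).2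
  rw [h, repr_vc] at h1
  simpa using h1.symm

theorem image_vc (H : ℕ) : {t : Fin r → 𝓞 K | ∀ i j, |ω.repr (t i) j| ≤ H} =
    (vc ω e : (Fin R → ℤ) → Fin r → 𝓞 K) '' (Cube R H : Set (Fin R → ℤ)) := by
  ext t
  constructor
  · intro ht
    refine ⟨fun l => ω.repr (t (e l).1) (e l).2, ?_, ?_⟩
    · rw [Finset.mem_coe, mem_Cube]
      exact fun l => ht _ _
    · funext i
      refine ω.repr.injective (Finsupp.ext fun j => ?_)
      rw [repr_vc]
      simp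
  · rintro ⟨s, hs, rfl⟩ i j
    rw [Finset.mem_coe, mem_Cube] at hs
    rw [repr_vc]
    exact hs _

/-- the boxes are finite -/
theorem finite_box {r : ℕ} (H : ℕ) : {t : Fin r → 𝓞 K | ∀ i j, |ω.repr (t i) j| ≤ H}.Finite := by
  obtain ⟨e⟩ := AAP.FinA.exists_equiv r m
  rw [image_vc ω e H]
  exact (Finset.finite_toSet _).image _

end FinA

open FinA

theorem lim_maps (K : Type) [Field K] [NumberField K] (ε : ℝ) (hε : 0 < ε) :
    ∃ d₀ : ℕ, ∀ d : ℕ, d₀ ≤ d → ∀ (m : ℕ) (ω : Module.Basis (Fin m) ℤ (𝓞 K)), ∃ H₀ : ℕ,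
      ∀ H : ℕ, H₀ ≤ H →
        (1 - ε) * ({t : Fin (2 * (d + 1)) → 𝓞 K | ∀ i j, |ω.repr (t i) j| ≤ H}.ncard : ℝ) ≤
          ({t : Fin (2 * (d + 1)) → 𝓞 K | (∀ i j, |ω.repr (t i) j| ≤ H) ∧
            IsMor d K (tp (d := d) fun i => (t i : K)) ∧
            ∀ Γ : Finset (Fin 2 → K),
              (∀ x ∈ Γ, x ≠ 0 ∧ ¬ Periodic (tp (d := d) fun i => (t i : K)) x) →
              PosDens (SP (tp (d := d) fun i => (t i : K)) Γ)}.ncard : ℝ) := by
  classical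
  obtain ⟨B, hB⟩ : ∃ B : ℝ, Real.exp (-B) ≤ ε / 2 := by
    have h3 : Filter.Tendsto (fun B : ℝ => Real.exp (-B)) Filter.atTop (nhds 0) :=
      Real.tendsto_exp_atBot.comp Filter.tendsto_neg_atTop_atBot
    exact ((h3.eventually (gt_mem_nhds (half_pos hε))).exists).imp fun _ h => h.le
  obtain ⟨V, hV, hVB⟩ := exists_primes K (20 * B)
  obtain ⟨δ, hδ⟩ : ∃ δ : HeightOneSpectrum (𝓞 K) → ℝ,
    δ = fun v => 1 / (20 * (Ideal.absNorm v.asIdeal : ℝ)) := ⟨_, rfl⟩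
  have hsum : B ≤ ∑ v ∈ V, δ v := by
    have h1 : ∑ v ∈ V, δ v = (∑ v ∈ V, (Ideal.absNorm v.asIdeal : ℝ)⁻¹) / 20 := by
      rw [Finset.sum_div, hδ]
      refine Finset.sum_congr rfl fun v _ => ?_
      change 1 / (20 * (Ideal.absNorm v.asIdeal : ℝ)) = _
      rw [one_div, mul_inv, div_eq_inv_mul]
    rw [h1]
    linarith
  refine ⟨∑ v ∈ V, (3 * Ideal.absNorm v.asIdeal + 6) + 2, fun d hd m ω => ?_⟩
  have hdv : ∀ v ∈ V, 3 * Ideal.absNorm v.asIdeal + 6 ≤ d := by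
    intro v hv
    have h1 := Finset.single_le_sum (f := fun v : HeightOneSpectrum (𝓞 K) =>
      3 * Ideal.absNorm v.asIdeal + 6) (fun _ _ => Nat.zero_le _) hv
    have h2 : 3 * Ideal.absNorm v.asIdeal + 6 ≤ ∑ v ∈ V, (3 * Ideal.absNorm v.asIdeal + 6) := h1
    omega
  obtain ⟨e⟩ := AAP.FinA.exists_equiv (2 * (d + 1)) m
  obtain ⟨A, hA⟩ : ∃ A : ∀ v : HeightOneSpectrum (𝓞 K), Set (Fin (2 * (d + 1)) → 𝓞 K ⧸ v.asIdeal),
    A = fun v => {t | ¬ Crit (tp (d := d) t)} := ⟨_, rfl⟩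
  have hAc : ∀ v ∈ V, ((A v).ncard : ℝ) ≤
      (1 - δ v) * (Ideal.absNorm v.asIdeal : ℝ) ^ (2 * (d + 1)) := by
    intro v hv
    have hmax : v.asIdeal.IsMaximal := v.isMaximal
    let _ : Field (𝓞 K ⧸ v.asIdeal) := Ideal.Quotient.field v.asIdeal
    have hfin : Finite (𝓞 K ⧸ v.asIdeal) := Ideal.finiteQuotientOfFreeOfNeBot _ v.ne_bot
    have hq : Nat.card (𝓞 K ⧸ v.asIdeal) = Ideal.absNorm v.asIdeal := by
      rw [Ideal.absNorm_apply]
      rfl
    have h1 := card_crit (𝓞 K ⧸ v.asIdeal) (d := d) hq (hV v hv).1 (hdv v hv)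
    have h2 : (A v).ncard + {t : Fin (2 * (d + 1)) → 𝓞 K ⧸ v.asIdeal |
        Crit (tp (d := d) t)}.ncard = Ideal.absNorm v.asIdeal ^ (2 * (d + 1)) := by
      have h3 := Set.ncard_add_ncard_compl {t : Fin (2 * (d + 1)) → 𝓞 K ⧸ v.asIdeal |
        Crit (tp (d := d) t)}
      rw [Nat.card_fun, Nat.card_fin, hq] at h3
      rw [← h3, add_comm, hA]
      rfl
    have h4 : ((A v).ncard : ℝ) + ({t : Fin (2 * (d + 1)) → 𝓞 K ⧸ v.asIdeal |
        Crit (tp (d := d) t)}.ncard : ℝ) = (Ideal.absNorm v.asIdeal : ℝ) ^ (2 * (d + 1)) := by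
      exact_mod_cast h2
    rw [hδ]
    change ((A v).ncard : ℝ) ≤ (1 - 1 / (20 * (Ideal.absNorm v.asIdeal : ℝ))) *
      (Ideal.absNorm v.asIdeal : ℝ) ^ (2 * (d + 1))
    rw [sub_mul, one_mul]
    linarith
  obtain ⟨H₀, hH⟩ := sieve_fin ω e V A δ hAc (ε / 2) (half_pos hε)
  refine ⟨H₀, fun H hH0 => ?_⟩
  have h1 := hH H hH0
  obtain ⟨S, hS⟩ : ∃ S : Set (Fin (2 * (d + 1) * m) → ℤ), S =
    (Cube (2 * (d + 1) * m) H : Set (Fin (2 * (d + 1) * m) → ℤ)) ∩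
      {s | ∀ v ∈ V, (fun i => Ideal.Quotient.mk v.asIdeal (vc ω e s i)) ∈ A v} := ⟨_, rfl⟩
  rw [← hS] at h1
  have h2 : (S.ncard : ℝ) ≤ ε * (2 * (H : ℝ) + 1) ^ (2 * (d + 1) * m) := by
    refine h1.trans (mul_le_mul_of_nonneg_right ?_ (by positivity))
    have h3 : Real.exp (-∑ v ∈ V, δ v) ≤ Real.exp (-B) := Real.exp_le_exp.2 (neg_le_neg hsum)
    linarith
  have h3 : ({t : Fin (2 * (d + 1)) → 𝓞 K | ∀ i j, |ω.repr (t i) j| ≤ H}.ncard : ℝ) =
      (2 * (H : ℝ) + 1) ^ (2 * (d + 1) * m) := by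
    rw [image_vc ω e H, Set.ncard_image_of_injective _ (vc_inj ω e), Set.ncard_coe_finset,
      card_Cube]
    push_cast
    rfl
  have h4 : (vc ω e : _ → Fin (2 * (d + 1)) → 𝓞 K) ''
      ((Cube (2 * (d + 1) * m) H : Set (Fin (2 * (d + 1) * m) → ℤ)) \ S) ⊆
      {t : Fin (2 * (d + 1)) → 𝓞 K | (∀ i j, |ω.repr (t i) j| ≤ H) ∧
            IsMor d K (tp (d := d) fun i => (t i : K)) ∧
            ∀ Γ : Finset (Fin 2 → K),
              (∀ x ∈ Γ, x ≠ 0 ∧ ¬ Periodic (tp (d := d) fun i => (t i : K)) x) →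
              PosDens (SP (tp (d := d) fun i => (t i : K)) Γ)} := by
    rintro _ ⟨s, ⟨hs1, hs2⟩, rfl⟩
    refine ⟨?_, ?_⟩
    · have h5 : vc ω e s ∈ {t : Fin (2 * (d + 1)) → 𝓞 K | ∀ i j, |ω.repr (t i) j| ≤ H} := by
        rw [image_vc ω e H]
        exact ⟨s, hs1, rfl⟩
      exact h5
    · obtain ⟨v, hv, hvA⟩ : ∃ v ∈ V,
          (fun i => Ideal.Quotient.mk v.asIdeal (vc ω e s i)) ∉ A v := by
        by_contra hcon
        push Not at hcon
        apply hs2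
        rw [hS]
        exact ⟨hs1, hcon⟩
      have h5 : Crit (tp (d := d) fun i => Ideal.Quotient.mk v.asIdeal (vc ω e s i)) := by
        by_contra hcon
        apply hvA
        rw [hA]
        exact hcon
      exact transfer (by omega) v (vc ω e s) (hV v hv).2 h5
  have hfin : {t : Fin (2 * (d + 1)) → 𝓞 K | (∀ i j, |ω.repr (t i) j| ≤ H)}.Finite := by
    rw [image_vc ω e H]
    exact (Finset.finite_toSet _).image _
  have h5 := Set.ncard_le_ncard h4 (hfin.subset fun t ht => ht.1)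
  rw [Set.ncard_image_of_injective _ (vc_inj ω e)] at h5
  have h6 : ((Cube (2 * (d + 1) * m) H : Set (Fin (2 * (d + 1) * m) → ℤ)) \ S).ncard + S.ncard =
      (2 * H + 1) ^ (2 * (d + 1) * m) := by
    rw [Set.ncard_sdiff_add_ncard_of_subset (by rw [hS]; exact Set.inter_subset_left)
      (Finset.finite_toSet _), Set.ncard_coe_finset, card_Cube]
  have h7 : (((Cube (2 * (d + 1) * m) H : Set (Fin (2 * (d + 1) * m) → ℤ)) \ S).ncard : ℝ) +
      (S.ncard : ℝ) = (2 * (H : ℝ) + 1) ^ (2 * (d + 1) * m) := by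
    exact_mod_cast h6
  rw [h3]
  have h8 : (((Cube (2 * (d + 1) * m) H : Set (Fin (2 * (d + 1) * m) → ℤ)) \ S).ncard : ℝ) ≤
      ({t : Fin (2 * (d + 1)) → 𝓞 K | (∀ i j, |ω.repr (t i) j| ≤ H) ∧
            IsMor d K (tp (d := d) fun i => (t i : K)) ∧
            ∀ Γ : Finset (Fin 2 → K),
              (∀ x ∈ Γ, x ≠ 0 ∧ ¬ Periodic (tp (d := d) fun i => (t i : K)) x) →
              PosDens (SP (tp (d := d) fun i => (t i : K)) Γ)}.ncard : ℝ) := by
    exact_mod_cast h5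
  rw [sub_mul, one_mul]
  linarith

end Pool.Agent.LMD
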