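import Mathlib
import Pool.Agent.AAP.Defs

set_option autoImplicit false

/-!
# Binary forms of every degree `d ≥ 2` without zero over a finite field
-/

namespace Pool.Agent.LMD

open NumberField IsDedekindDomain
open Pool.Agent.AAP (fm Free)

/-- The form `X^d - X Y^(d-1) - c Y^d`. -/
noncomputable def frf (A : Type) [CommRing A] (d : ℕ) (c : A) : MvPolynomial (Fin 2) A :=
  MvPolynomial.X 0 ^ d - MvPolynomial.X 0 * MvPolynomial.X 1 ^ (d - 1) -
    MvPolynomial.C c * MvPolynomial.X 1 ^ d

theorem hom_frf (A : Type) [CommRing A] {d : ℕ} (hd : 1 ≤ d) (c : A) :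
    (frf A d c).IsHomogeneous d := by
  have hp : ∀ (j : Fin 2) (n : ℕ), ((MvPolynomial.X j : MvPolynomial (Fin 2) A) ^ n).IsHomogeneous n := by
    intro j n
    have h3 := (MvPolynomial.isHomogeneous_X A j).pow n
    rwa [one_mul] at h3
  have h1 := (MvPolynomial.isHomogeneous_X A (0 : Fin 2)).mul (hp 1 (d - 1))
  rw [show 1 + (d - 1) = d by omega] at h1
  have h2 := (MvPolynomial.isHomogeneous_C (Fin 2) c).mul (hp 1 d)
  rw [zero_add] at h2
  exact ((hp 0 d).sub h1).sub h2

theorem map_frf {A B : Type} [CommRing A] [CommRing B] (f : A →+* B) (d : ℕ) (c : A) :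
    MvPolynomial.map f (frf A d c) = frf B d (f c) := by
  simp [frf]

theorem eval_frf {A : Type} [CommRing A] (d : ℕ) (c : A) (z : Fin 2 → A) :
    MvPolynomial.eval z (frf A d c) = z 0 ^ d - z 0 * z 1 ^ (d - 1) - c * z 1 ^ d := by
  simp [frf]

/-- `x ↦ x^d - x` is not surjective on a finite field. -/
theorem exists_value {k : Type} [Field k] [Finite k] {d : ℕ} (hd : 2 ≤ d) :
    ∃ c : k, ∀ x : k, x ^ d - x ≠ c := by
  by_contra h
  push Not at h
  have h1 : Function.Surjective fun x : k => x ^ d - x := h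
  have h2 : Function.Injective fun x : k => x ^ d - x := Finite.injective_iff_surjective.2 h1
  have h3 : (0 : k) = 1 := h2 (by simp [show d ≠ 0 by omega])
  exact zero_ne_one h3

/-- the form has no zero when `c` is not of the form `x^d - x` -/
theorem frf_ne_zero {k : Type} [Field k] {d : ℕ} (hd : 2 ≤ d) {c : k} (hc : ∀ x : k, x ^ d - x ≠ c)
    (z : Fin 2 → k) (hz : z ≠ 0) : MvPolynomial.eval z (frf k d c) ≠ 0 := by
  rw [eval_frf]
  by_cases h1 : z 1 = 0
  · have h0 : z 0 ≠ 0 := by
      intro h0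
      apply hz
      funext i
      fin_cases i
      · exact h0
      · exact h1
    rw [h1, zero_pow (by omega), zero_pow (by omega), mul_zero, mul_zero, sub_zero, sub_zero]
    exact pow_ne_zero _ h0
  · intro h
    apply hc (z 0 / z 1)
    have h2 : z 1 ^ d ≠ 0 := pow_ne_zero _ h1
    have h3 : z 1 ^ d = z 1 ^ (d - 1) * z 1 := by
      rw [← pow_succ]
      congr 1
      omega
    rw [div_pow]
    field_simp
    rw [h3] at h ⊢
    linear_combination h * z 1

/-- every degree `d ≥ 2`, every finite field: a form without zero -/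
theorem exists_frf {k : Type} [Field k] [Finite k] {d : ℕ} (hd : 2 ≤ d) :
    ∃ c : k, ∀ z : Fin 2 → k, z ≠ 0 → MvPolynomial.eval z (frf k d c) ≠ 0 := by
  obtain ⟨c, hc⟩ := exists_value (k := k) hd
  exact ⟨c, frf_ne_zero hd hc⟩

end Pool.Agent.LMD
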