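import Mathlib
import Pool.Agent.LMD.Defs
import Pool.Agent.LMD.JetC

set_option autoImplicit false

/-!
# The cycles through the critical point: from one step to the whole cycle
-/

namespace Pool.Agent.LMD

open Polynomial
open Pool.Agent.PNH (Tup app mp)
open Pool.Agent.AAP (wd near tp fm)
open Pool.Agent.AAP.Ex3A (W)

variable {κ : Type} [Field κ]

/-- `G` is at the point `x` for `X = 0`, and moves away from it to the exact order `m` -/
def Nr (x : Pts κ) (m : ℕ) (G : Fin 2 → κ[X]) : Prop :=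
  ∃ α β γ : κ[X], (∀ i, G i = α * C (x.rep i) + β * C (cu x.rep i)) ∧ α.coeff 0 ≠ 0 ∧
    β = X ^ m * γ ∧ γ.coeff 0 ≠ 0

theorem Nr_start {z : Fin 2 → κ} {x : Pts κ} {l : κ} (hl : l ≠ 0) (hzx : ∀ i, z i = l * x.rep i) :
    Nr x 1 (fun i => C (z i) + X * C (cu x.rep i)) := by
  refine ⟨C l, X, 1, fun i => ?_, ?_, ?_, ?_⟩
  · show C (z i) + X * C (cu x.rep i) = _
    rw [hzx i, C_mul]
  · rwa [coeff_C_zero]
  · rw [pow_one, mul_one]
  · rw [coeff_one_zero]
    exact one_ne_zero

/-- at `X = 0` -/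
theorem near_eval_zero (F : Tup 1 κ) (k : ℕ) (z u : Fin 2 → κ) :
    (app F)^[k] z = fun i => (near F k z u i).eval 0 := by
  have h2 := PNH.iter_mp (evalRingHom (0 : κ)) (mp (C : κ →+* κ[X]) F) k
    (fun i => C (z i) + X * C (u i))
  have h1 : mp (evalRingHom (0 : κ)) (mp (C : κ →+* κ[X]) F) = F := by
    rw [PNH.mp_mp]
    have : (evalRingHom (0 : κ)).comp (C : κ →+* κ[X]) = RingHom.id κ := by
      ext a
      simp
    rw [this]
    funext i
    exact MvPolynomial.map_id _
  rw [h1] at h2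
  have h3 : (fun i => evalRingHom (0 : κ) (C (z i) + X * C (u i))) = z := by
    funext i
    simp
  rw [h3] at h2
  rw [h2]
  rfl

theorem pts_eq_of_wd {x y : Pts κ} (h : wd x.rep y.rep = 0) : x = y := by
  obtain ⟨s, hs⟩ := exists_smul_of_wd y.rep_nonzero h
  rw [← x.mk_rep, ← y.mk_rep, Projectivization.mk_eq_mk_iff']
  exact ⟨s, hs⟩

open Classical in
theorem crit_of_step {d : ℕ} (t : Fin (2 * (d + 1)) → κ) (c : Pts κ)
    (hall : ∀ x, ∃ n : ℕ, (fun y => cls y (jt t y 0))^[n] x = c)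
    (step : ∀ (x : Pts κ) (m : ℕ), 1 ≤ m → ∀ G : Fin 2 → κ[X], Nr x m G →
      Nr (cls x (jt t x 0)) (if x = c then 2 * m else m) (app (mp C (tp (d := d) t)) G))
    (z : Fin 2 → κ) (hz : z ≠ 0) (n : ℕ) (hn : 0 < n)
    (hper : wd ((app (tp (d := d) t))^[n] z) z = 0) :
    ∃ N : ℕ, 0 < N ∧ ∃ u : Fin 2 → κ, wd z u ≠ 0 ∧
      (∀ j < 2, (W (tp (d := d) t) N z u).coeff j = 0) ∧
      (W (tp (d := d) t) N z u).coeff 2 ≠ 0 := by
  classical
  set F := tp (d := d) t with hF
  set f : Pts κ → Pts κ := fun y => cls y (jt t y 0) with hf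
  set x₀ : Pts κ := Projectivization.mk κ z hz with hx₀
  obtain ⟨a, ha⟩ := Projectivization.exists_smul_eq_mk_rep κ z hz
  -- `z = l • x₀.rep`
  have hzx : ∀ i, z i = ((a⁻¹ : κˣ) : κ) * x₀.rep i := by
    intro i
    rw [← ha]
    show z i = ((a⁻¹ : κˣ) : κ) * ((a : κ) * z i)
    rw [← mul_assoc, Units.inv_mul, one_mul]
  set l : κ := ((a⁻¹ : κˣ) : κ) with hl
  have hl0 : l ≠ 0 := Units.ne_zero _
  set u : Fin 2 → κ := cu x₀.rep with hu
  have hwu : wd x₀.rep u = 1 := wd_cu x₀.rep_nonzero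
  have hwzu : wd z u = l := by
    have h1 : wd x₀.rep u = x₀.rep 0 * u 1 - x₀.rep 1 * u 0 := rfl
    show z 0 * u 1 - z 1 * u 0 = l
    rw [hzx 0, hzx 1]
    linear_combination l * hwu - l * h1
  -- the orders
  have hNr : ∀ k : ℕ, Nr (f^[k] x₀)
      (2 ^ ((Finset.range k).filter fun j => f^[j] x₀ = c).card) (near F k z u) := by
    intro k
    induction k with
    | zero =>
      have h := Nr_start (x := x₀) hl0 hzx
      simpa [near] using h
    | succ k ih =>
      have h1 : near F (k + 1) z u = app (mp C F) (near F k z u) := by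
        unfold near
        rw [Function.iterate_succ_apply']
      rw [h1, Function.iterate_succ_apply']
      have h2 := step (f^[k] x₀) _ Nat.one_le_two_pow _ ih
      have h3 : (if f^[k] x₀ = c then
          2 * 2 ^ ((Finset.range k).filter fun j => f^[j] x₀ = c).card else
          2 ^ ((Finset.range k).filter fun j => f^[j] x₀ = c).card) =
          2 ^ ((Finset.range (k + 1)).filter fun j => f^[j] x₀ = c).card := by
        rw [Finset.range_add_one, Finset.filter_insert]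
        split_ifs with h4
        · rw [Finset.card_insert_of_notMem (by simp), pow_succ, mul_comm]
        · rfl
      rw [← h3]
      exact h2
  -- the point of the iterate
  have hval : ∀ k : ℕ, ∃ s : κ, s ≠ 0 ∧ ∀ i, (app F)^[k] z i = s * (f^[k] x₀).rep i := by
    intro k
    obtain ⟨α, β, γ, h1, h2, h3, h4⟩ := hNr k
    refine ⟨α.eval 0, by rwa [← coeff_zero_eq_eval_zero], fun i => ?_⟩
    rw [near_eval_zero F k z u]
    show (near F k z u i).eval 0 = _
    rw [h1 i, h3]
    simp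
  have hxn : f^[n] x₀ = x₀ := by
    obtain ⟨s, hs, h⟩ := hval n
    apply pts_eq_of_wd
    have h1 : s * l * wd (f^[n] x₀).rep x₀.rep = 0 := by
      rw [← hper]
      show s * l * ((f^[n] x₀).rep 0 * x₀.rep 1 - (f^[n] x₀).rep 1 * x₀.rep 0) =
        (app F)^[n] z 0 * z 1 - (app F)^[n] z 1 * z 0
      rw [h 0, h 1, hzx 0, hzx 1]
      ring
    exact (mul_eq_zero.1 h1).resolve_left (mul_ne_zero hs hl0)
  set N := Function.minimalPeriod f x₀ with hN
  have hNpos : 0 < N := Function.IsPeriodicPt.minimalPeriod_pos hn hxn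
  have hxN : f^[N] x₀ = x₀ := Function.iterate_minimalPeriod
  -- exactly one visit of `c`
  have hone : ((Finset.range N).filter fun j => f^[j] x₀ = c).card = 1 := by
    obtain ⟨j, hj⟩ := hall x₀
    rw [Finset.card_eq_one]
    refine ⟨j % N, ?_⟩
    ext i
    rw [Finset.mem_filter, Finset.mem_range, Finset.mem_singleton]
    have hjm : f^[j % N] x₀ = c := by
      rw [hN, Function.iterate_mod_minimalPeriod_eq]
      exact hj
    constructor
    · rintro ⟨h1, h2⟩
      exact Function.iterate_injOn_Iio_minimalPeriod (Set.mem_Iio.2 h1)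
        (Set.mem_Iio.2 (Nat.mod_lt _ hNpos)) (h2.trans hjm.symm)
    · rintro rfl
      exact ⟨Nat.mod_lt _ hNpos, hjm⟩
  obtain ⟨α, β, γ, h1, h2, h3, h4⟩ := hNr N
  rw [hone, pow_one] at h3
  have hW : W F N z u = X ^ 2 * (C (-l) * γ) := by
    show near F N z u 0 * C (z 1) - near F N z u 1 * C (z 0) = _
    rw [h1 0, h1 1, hxN, h3, hzx 0, hzx 1]
    have h5 : C (x₀.rep 0) * C (u 1) - C (x₀.rep 1) * C (u 0) = (1 : κ[X]) := by
      rw [← C_mul, ← C_mul, ← C_sub, ← C_1]
      congr 1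
    simp only [C_mul, C_neg]
    linear_combination (-(X ^ 2 * γ * C l)) * h5
  refine ⟨N, hNpos, u, by rw [hwzu]; exact hl0, fun j hj => ?_, ?_⟩
  · rw [hW, coeff_X_pow_mul', if_neg (by omega)]
  · rw [hW, coeff_X_pow_mul', if_pos le_rfl, Nat.sub_self, coeff_C_mul]
    exact mul_ne_zero (neg_ne_zero.2 hl0) h4

end Pool.Agent.LMD
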