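import Mathlib
import Pool.Agent.AAP.Fin
import Pool.Agent.AAP.Lwc
import Pool.Agent.AAP.Upp
import Pool.Agent.AAP.Cnt
import Pool.Agent.AAP.NMp
import Pool.Agent.LMD.Ctr

set_option autoImplicit false

/-!
# A positive proportion of the maps, for every number field and every degree, by height
-/

namespace Pool.Agent.LMD

open NumberField IsDedekindDomain
open scoped WithZero
open Pool.Agent.PNH (Tup app mp IsMor Cert)
open Pool.Agent.AAP
open Pool.Agent.TameArb (PosDens)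
open Pool.Agent.HTK (sc)

namespace PosEA

variable {K : Type} [Field K] [NumberField K]

omit [NumberField K] in
theorem periodic_sc' {d : ℕ} {F : Tup 1 K} (hF : ∀ i, (F i).IsHomogeneous d) {c : K} (hc : c ≠ 0)
    {x : Fin 2 → K} (h : Periodic (sc c F) x) : Periodic F x := by
  obtain ⟨n, hn, h1⟩ := h
  obtain ⟨a, ha, h2⟩ := HTK.iter_sc F hF c hc n x
  rw [h2, wd_smul_left] at h1
  exact ⟨n, hn, (mul_eq_zero.1 h1).resolve_left ha⟩

variable (K) in
/-- a prime and a residue class: first form zero, second form without zero -/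
theorem exists_cls {d : ℕ} (hd : 2 ≤ d) : ∃ (v : HeightOneSpectrum (𝓞 K))
    (a : Fin (2 * (d + 1)) → 𝓞 K), ∀ t : Fin (2 * (d + 1)) → 𝓞 K, (∀ l, t l - a l ∈ v.asIdeal) →
      (∀ j : Fin (d + 1), t (finProdFinEquiv (0, j)) ∈ v.asIdeal) ∧
      ∀ z : Fin 2 → 𝓞 K ⧸ v.asIdeal, z ≠ 0 → MvPolynomial.eval z
        (fm fun j : Fin (d + 1) => Ideal.Quotient.mk v.asIdeal (t (finProdFinEquiv (1, j)))) ≠ 0 := by
  classical
  have hinf : Infinite (HeightOneSpectrum (𝓞 K)) := TameArb.infinite_primes K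
  obtain ⟨v, hv⟩ := (NMpA.small_norm (K := K) (8 * d)).infinite_compl.nonempty
  have hfin : Finite (𝓞 K ⧸ v.asIdeal) := Ideal.finiteQuotientOfFreeOfNeBot _ v.ne_bot
  have hmax := v.isMaximal
  let _ := Ideal.Quotient.field v.asIdeal
  have hq : Nat.card (𝓞 K ⧸ v.asIdeal) = Ideal.absNorm v.asIdeal := by
    rw [Ideal.absNorm_apply]
    rfl
  have h1 : 8 * d ≤ Nat.card (𝓞 K ⧸ v.asIdeal) := by
    rw [hq]
    by_contra hcon
    exact hv (not_le.1 hcon)
  have h2 := free_card hd h1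
  have h3 : ({a | Free a} : Set (Fin (d + 1) → 𝓞 K ⧸ v.asIdeal)).Nonempty := by
    by_contra hcon
    rw [Set.not_nonempty_iff_eq_empty] at hcon
    rw [hcon, Set.ncard_empty, Nat.cast_zero] at h2
    have h4 : (0 : ℝ) < (Nat.card (𝓞 K ⧸ v.asIdeal) : ℝ) := by
      exact_mod_cast (by omega : 0 < Nat.card (𝓞 K ⧸ v.asIdeal))
    have h5 : (0 : ℝ) < 4 * d := by
      have : 0 < d := by omega
      positivity
    have h6 : 0 < (Nat.card (𝓞 K ⧸ v.asIdeal) : ℝ) ^ (d + 1) / (4 * d) := by positivity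
    linarith
  obtain ⟨u, hu⟩ := h3
  choose w hw using fun j => Ideal.Quotient.mk_surjective (u j)
  refine ⟨v, fun l => if (finProdFinEquiv.symm l).1 = (0 : Fin 2) then 0 else
    w (finProdFinEquiv.symm l).2, fun t ht => ⟨fun j => ?_, ?_⟩⟩
  · have h4 := ht (finProdFinEquiv ((0 : Fin 2), j))
    beta_reduce at h4
    rw [Equiv.symm_apply_apply, if_pos rfl, sub_zero] at h4
    exact h4
  · have h5 : (fun j : Fin (d + 1) => Ideal.Quotient.mk v.asIdeal (t (finProdFinEquiv (1, j)))) =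
        u := by
      funext j
      have h4 := ht (finProdFinEquiv ((1 : Fin 2), j))
      beta_reduce at h4
      rw [Equiv.symm_apply_apply, if_neg (show ¬ ((1 : Fin 2) = 0) by decide)] at h4
      rw [← hw j, Ideal.Quotient.eq]
      exact h4
    rw [h5]
    exact hu

end PosEA

open PosEA PosA FinA

theorem pos_all {K : Type} [Field K] [NumberField K] {d : ℕ} (hd : 2 ≤ d) :
    ∃ c : ℝ, 0 < c ∧ ∃ B₀ : ℝ, ∀ B : ℝ, B₀ ≤ B →
      c * ({T : Projectivization K (Fin (2 * (d + 1)) → K) | T.mulHeight ≤ B}.ncard : ℝ) ≤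
        ({T : Projectivization K (Fin (2 * (d + 1)) → K) | T.mulHeight ≤ B ∧
          IsMor d K (tp (d := d) T.rep) ∧ ∀ Γ : Finset (Fin 2 → K),
            (∀ x ∈ Γ, x ≠ 0 ∧ ¬ Periodic (tp (d := d) T.rep) x) →
            PosDens (SP (tp (d := d) T.rep) Γ)}.ncard : ℝ) := by
  classical
  obtain ⟨v, a, ha⟩ := exists_cls K hd
  obtain ⟨c, B₁, hc, h1⟩ := low_class K (2 * (d + 1)) (by omega) v a
  obtain ⟨C, hC, h2⟩ := upp K (2 * (d + 1))
  set n : ℝ := (Module.finrank ℚ K : ℝ) with hn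
  have hn0 : 0 ≤ n := Nat.cast_nonneg _
  obtain ⟨B₂, h3⟩ := height_small (K := K) hd (1 / (4 * n + 9)) (by positivity) (by
    rw [← hn, one_div, inv_mul_lt_iff₀ (by positivity)]
    linarith) (c / (2 * C)) (by positivity)
  refine ⟨c / (2 * C), by positivity, max (max B₁ B₂) 1, fun B hB => ?_⟩
  have h4 := h1 B (((le_max_left _ _).trans (le_max_left _ _)).trans hB)
  have h5 := h3 B (((le_max_right _ _).trans (le_max_left _ _)).trans hB)
  have h6 := h2 B ((le_max_right _ _).trans hB)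
  set T₀ : Set (Projectivization K (Fin (2 * (d + 1)) → K)) := {T | T.mulHeight ≤ B} with hT₀
  have hT₀f : T₀.Finite := HTK.pts_finite K (2 * (d + 1)) B
  set Cl : Set (Projectivization K (Fin (2 * (d + 1)) → K)) := {P |
      P.mulHeight ≤ B ∧ ∃ (b : K) (u : Fin (2 * (d + 1)) → 𝓞 K), b ≠ 0 ∧
        (b • P.rep = fun i => (u i : K)) ∧ ∀ i, u i - a i ∈ v.asIdeal} with hCl
  set Bd : Set (Projectivization K (Fin (2 * (d + 1)) → K)) := {T | T.mulHeight ≤ B ∧
        ¬ (IsMor d K (tp (d := d) T.rep) ∧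
          ∀ P Q : Projectivization K (Fin 2 → K), P ≠ Q →
            P.mulHeight ≤ T.mulHeight ^ (1 / (4 * n + 9)) →
            Q.mulHeight ≤ T.mulHeight ^ (1 / (4 * n + 9)) →
            PosDens (SP (tp (d := d) T.rep) {P.rep, Q.rep}))} with hBd
  set G : Set (Projectivization K (Fin (2 * (d + 1)) → K)) := {T | T.mulHeight ≤ B ∧
          IsMor d K (tp (d := d) T.rep) ∧ ∀ Γ : Finset (Fin 2 → K),
            (∀ x ∈ Γ, x ≠ 0 ∧ ¬ Periodic (tp (d := d) T.rep) x) →
            PosDens (SP (tp (d := d) T.rep) Γ)} with hG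
  have hsub : Cl ⊆ G ∪ Bd := by
    rintro P ⟨hP, b, u, hb, hbu, hu⟩
    by_cases hmor : IsMor d K (tp (d := d) P.rep)
    · left
      obtain ⟨h7, h8⟩ := ha u hu
      have hsc : tp (d := d) (fun i => (u i : K)) = sc b (tp (d := d) P.rep) := by
        rw [← hbu, tp_smul]
      have hmor' : IsMor d K (tp (d := d) fun i => (u i : K)) := by
        rw [hsc]
        exact HTK.isMor_sc _ b hb hmor
      have h9 : sc b⁻¹ (sc b (tp (d := d) P.rep)) = tp P.rep := by
        rw [HTK.sc_sc, inv_mul_cancel₀ hb, HTK.sc_one]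
      refine ⟨hP, hmor, fun Γ hΓ => ?_⟩
      have h10 := contr_dens hd v u h7 h8 hmor' Γ fun x hx => ⟨(hΓ x hx).1, fun h => by
        rw [hsc] at h
        exact (hΓ x hx).2 (periodic_sc' (PosA.hom_tp _) hb h)⟩
      rw [hsc] at h10 hmor'
      have h11 := sp_sc hmor'.1 (inv_ne_zero hb) Γ h10
      rwa [h9] at h11
    · right
      exact ⟨hP, fun h => hmor h.1⟩
  have h7 : Cl.ncard ≤ G.ncard + Bd.ncard :=
    (Set.ncard_le_ncard hsub ((hT₀f.subset fun T hT => hT.1).union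
      (hT₀f.subset fun T hT => hT.1))).trans (Set.ncard_union_le _ _)
  have h8 : (Cl.ncard : ℝ) ≤ G.ncard + Bd.ncard := by exact_mod_cast h7
  have h9 : c / (2 * C) * (T₀.ncard : ℝ) ≤ c / 2 * B ^ (2 * (d + 1)) := by
    calc c / (2 * C) * (T₀.ncard : ℝ) ≤ c / (2 * C) * (C * B ^ (2 * (d + 1))) :=
          mul_le_mul_of_nonneg_left h6 (by positivity)
      _ = c / 2 * B ^ (2 * (d + 1)) := by field_simp
  linarith

end Pool.Agent.LMD
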